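import Pool.Agent.H28.MZ.Targets

/-!
Module E3 of the PZ project (MP_9f0eeb_nt).
-/

set_option autoImplicit false

open Complex MeasureTheory Set Filter Topology

namespace Pool.Agent.H27.PZ

open Pool.Agent.H28.MZ
open Pool.Agent.H23.GLH (PrimChar)

lemma co_norm (π : PrimChar) (n : ℕ) : ‖co π n‖ ≤ 1 := by
  rw [co]
  split_ifs
  · simp
  · exact DirichletCharacter.norm_le_one π.χ _

lemma ei_norm (x : ℝ) : ‖ei x‖ = 1 := by
  rw [ei, Complex.norm_exp_ofReal_mul_I]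

/-- summation over multiples -/
lemma sum_mult {g : ℕ → ℝ} (hg : ∀ n, 0 ≤ g n) (hg0 : g 0 = 0)
    (hs : Summable fun n => dv n * g n) (Y : ℕ) :
    (∀ h : ℕ, 1 ≤ h → Summable fun m => g (h * m)) ∧
      ∑ h ∈ Finset.Icc 1 Y, ∑' m, g (h * m) ≤ ∑' n, dv n * g n := by
  classical
  have hdv : ∀ n : ℕ, n ≠ 0 → 1 ≤ dv n := by
    intro n hn
    rw [dv]
    exact_mod_cast Finset.card_pos.2 ⟨1, Nat.one_mem_divisors.2 hn⟩
  have hsg : Summable g := by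
    refine Summable.of_nonneg_of_le hg (fun n => ?_) hs
    by_cases hn : n = 0
    · rw [hn, hg0, mul_zero]
    · exact le_mul_of_one_le_left (hg n) (hdv n hn)
  have hinj : ∀ h : ℕ, 1 ≤ h → Function.Injective fun m => h * m := fun h hh m m' e =>
    Nat.eq_of_mul_eq_mul_left hh e
  refine ⟨fun h hh => hsg.comp_injective (hinj h hh), ?_⟩
  have h1 : ∀ h ∈ Finset.Icc 1 Y, ∑' m, g (h * m) = ∑' n, if h ∣ n then g n else 0 := by
    intro h hh
    rw [Finset.mem_Icc] at hh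
    rw [← (hinj h hh.1).tsum_eq (f := fun n => if h ∣ n then g n else 0)]
    · refine tsum_congr fun m => ?_
      rw [if_pos (Nat.dvd_mul_right h m)]
    · intro n hn
      rw [Function.mem_support] at hn
      by_contra hne
      apply hn
      rw [if_neg]
      rintro ⟨m, rfl⟩
      exact hne ⟨m, rfl⟩
  have h2 : ∀ h : ℕ, Summable fun n => if h ∣ n then g n else 0 := by
    intro h
    refine Summable.of_nonneg_of_le (fun n => ?_) (fun n => ?_) hsg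
    · split_ifs
      · exact hg n
      · exact le_rfl
    · split_ifs
      · exact le_rfl
      · exact hg n
  rw [Finset.sum_congr rfl h1, ← Summable.tsum_finsetSum fun h _ => h2 h]
  refine Summable.tsum_le_tsum (fun n => ?_) (summable_sum fun h _ => h2 h) hs
  rw [← Finset.sum_filter, Finset.sum_const, nsmul_eq_mul]
  by_cases hn : n = 0
  · rw [hn, hg0, mul_zero, mul_zero]
  · refine mul_le_mul_of_nonneg_right ?_ (hg n)
    rw [dv]
    refine Nat.cast_le.2 (Finset.card_le_card fun h hh => ?_)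
    rw [Finset.mem_filter] at hh
    exact Nat.mem_divisors.2 ⟨hh.2, hn⟩

/-- summation over products -/
lemma sum_prod {G : ℕ → ℝ} (hG : ∀ n, 0 ≤ G n) (Y L : ℕ) :
    ∑ l ∈ Finset.Icc 1 Y, ∑ k ∈ Finset.Icc 1 L with k * l ≤ L, G (k * l) ≤
      ∑ K ∈ Finset.Icc 1 L, dv K * G K := by
  classical
  have h1 : ∀ l ∈ Finset.Icc 1 Y, ∑ k ∈ Finset.Icc 1 L with k * l ≤ L, G (k * l) ≤
      ∑ K ∈ Finset.Icc 1 L, if l ∣ K then G K else 0 := by
    intro l hl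
    rw [Finset.mem_Icc] at hl
    rw [← Finset.sum_filter]
    have hinj : Set.InjOn (fun k => k * l) (Finset.filter (fun k => k * l ≤ L)
        (Finset.Icc 1 L) : Finset ℕ) := fun k _ k' _ e => Nat.eq_of_mul_eq_mul_right hl.1 e
    rw [← Finset.sum_image (f := G) (g := fun k => k * l) hinj]
    refine Finset.sum_le_sum_of_subset_of_nonneg ?_ fun _ _ _ => hG _
    intro K hK
    rw [Finset.mem_image] at hK
    obtain ⟨k, hk, rfl⟩ := hK
    rw [Finset.mem_filter, Finset.mem_Icc] at hk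
    rw [Finset.mem_filter, Finset.mem_Icc]
    exact ⟨⟨Nat.mul_pos hk.1.1 hl.1, hk.2⟩, Nat.dvd_mul_left l k⟩
  refine (Finset.sum_le_sum h1).trans ?_
  rw [Finset.sum_comm]
  refine Finset.sum_le_sum fun K hK => ?_
  rw [Finset.mem_Icc] at hK
  rw [← Finset.sum_filter, Finset.sum_const, nsmul_eq_mul]
  refine mul_le_mul_of_nonneg_right ?_ (hG K)
  rw [dv]
  refine Nat.cast_le.2 (Finset.card_le_card fun l hl => ?_)
  rw [Finset.mem_filter] at hl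
  exact Nat.mem_divisors.2 ⟨hl.2, by omega⟩

/-- the Gaussian weight -/
noncomputable def gK (a H r : ℝ) (K n : ℕ) : ℝ :=
  if n = 0 then 0 else (n : ℝ) ^ (-a) *
    Real.exp (-(H ^ 2 * (r * Real.log K - Real.log n) ^ 2 / 4))

lemma gK_nonneg (a H r : ℝ) (K n : ℕ) : 0 ≤ gK a H r K n := by
  rw [gK]
  split_ifs
  · exact le_rfl
  · positivity

/-- bound for `Sg` -/
lemma Sg_le (χ : PrimChar) {a H r u : ℝ} {K h : ℕ} (hK : 1 ≤ K) (hh : 1 ≤ h)
    (hs : Summable fun m => gK a H r K (h * m)) :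
    ‖Sg χ a H u ((K : ℝ) ^ r / h)‖ ≤ (h : ℝ) ^ a * ∑' m, gK a H r K (h * m) := by
  have hh0 : (0 : ℝ) < h := by exact_mod_cast hh
  have hK0 : (0 : ℝ) < K := by exact_mod_cast hK
  rw [Sg, ← tsum_mul_left]
  refine tsum_of_norm_bounded (hs.mul_left _).hasSum fun m => ?_
  by_cases hm : m = 0
  · rw [hm, co, if_pos rfl, zero_mul, norm_zero]
    exact mul_nonneg (by positivity) (gK_nonneg _ _ _ _ _)
  · have hm0 : (0 : ℝ) < m := by exact_mod_cast Nat.pos_of_ne_zero hm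
    rw [norm_mul]
    refine (mul_le_of_le_one_left (norm_nonneg _) (co_norm χ m)).trans ?_
    rw [gf, norm_mul, ei_norm, mul_one, Complex.norm_real, Real.norm_eq_abs,
      abs_of_nonneg (by positivity), gK, if_neg (Nat.mul_ne_zero (by omega) hm), Nat.cast_mul,
      Real.mul_rpow hh0.le hm0.le, Real.log_mul hh0.ne' hm0.ne', Real.log_div (by positivity)
      hh0.ne', Real.log_rpow hK0]
    have e1 : (h : ℝ) ^ a * (h : ℝ) ^ (-a) = 1 := by
      rw [← Real.rpow_add hh0, add_neg_cancel, Real.rpow_zero]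
    have e2 : r * Real.log K - (Real.log h + Real.log m) =
        r * Real.log K - Real.log h - Real.log m := by ring
    rw [e2]
    refine le_of_eq ?_
    calc (m : ℝ) ^ (-a) * Real.exp (-(H ^ 2 * (r * Real.log K - Real.log h - Real.log m) ^ 2 / 4))
        = ((h : ℝ) ^ a * (h : ℝ) ^ (-a)) * ((m : ℝ) ^ (-a) *
          Real.exp (-(H ^ 2 * (r * Real.log K - Real.log h - Real.log m) ^ 2 / 4))) := by
          rw [e1, one_mul]
      _ = _ := by ring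

/-- the summand of `Kt` -/
noncomputable def sk (χ ψ : PrimChar) (r τ η H M u : ℝ) (h l k : ℕ) : ℂ :=
  (starRingEnd ℂ) (co ψ k) *
    (((k : ℝ) ^ (-(1 / 2 - r * η)) * V (k / M) : ℝ) : ℂ) * ei (τ * (Real.log k + Real.log l)) *
      Sg χ (1 / 2 - η) H u (((k : ℝ) * l) ^ r / h)

lemma sk_le (χ ψ : PrimChar) {r τ η H M u : ℝ} {h l k : ℕ} (hM : 0 < M)
    (hV : ∀ x : ℝ, 0 < x → 0 ≤ V x ∧ V x ≤ 1) (hk : 1 ≤ k) :
    ‖sk χ ψ r τ η H M u h l k‖ ≤ (k : ℝ) ^ (-(1 / 2 - r * η)) *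
      ‖Sg χ (1 / 2 - η) H u (((k : ℝ) * l) ^ r / h)‖ := by
  have hk0 : (0 : ℝ) < k := by exact_mod_cast hk
  obtain ⟨v0, v1⟩ := hV (k / M) (by positivity)
  have hp : 0 ≤ (k : ℝ) ^ (-(1 / 2 - r * η)) := by positivity
  rw [sk, norm_mul, norm_mul, norm_mul, ei_norm, mul_one, RCLike.norm_conj, Complex.norm_real,
    Real.norm_eq_abs, abs_of_nonneg (mul_nonneg hp v0)]
  refine mul_le_mul_of_nonneg_right ?_ (norm_nonneg _)
  calc ‖co ψ k‖ * ((k : ℝ) ^ (-(1 / 2 - r * η)) * V (k / M))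
      ≤ 1 * ((k : ℝ) ^ (-(1 / 2 - r * η)) * 1) :=
        mul_le_mul (co_norm ψ k) (mul_le_mul_of_nonneg_left v1 hp) (mul_nonneg hp v0) zero_le_one
    _ = _ := by ring

lemma first_part (χ ψ : PrimChar) {r τ η H M u Z C : ℝ} {Y₁ Y₂ : ℕ} (hr : 0 < r) (hη : 0 ≤ η)
    (hM : 0 < M) (hZ : 0 ≤ Z) (hV : ∀ x : ℝ, 0 < x → 0 ≤ V x ∧ V x ≤ 1)
    (hsum : ∀ K : ℕ, Summable fun n => dv n * gK (1 / 2 - η) H r K n)
    (htot : ∑ K ∈ Finset.Icc 1 ⌊Z ^ (1 / r)⌋₊, dv K * (K : ℝ) ^ (-(1 / 2 - r * η)) *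
      ∑' n, dv n * gK (1 / 2 - η) H r K n ≤ C) :
    ∑ h ∈ Finset.Icc 1 Y₁, ∑ l ∈ Finset.Icc 1 Y₂,
      (h : ℝ) ^ (-(1 / 2 + η)) * (l : ℝ) ^ (-(1 / 2 + r * η)) *
        ‖∑' k : ℕ, if 0 < ((k : ℝ) * l) ^ r ∧ ((k : ℝ) * l) ^ r ≤ Z then
          sk χ ψ r τ η H M u h l k else 0‖ ≤ C := by
  classical
  obtain ⟨L, hL⟩ : ∃ L : ℕ, L = ⌊Z ^ (1 / r)⌋₊ := ⟨_, rfl⟩
  rw [← hL] at htot
  have hg0 : ∀ K : ℕ, gK (1 / 2 - η) H r K 0 = 0 := fun K => by rw [gK, if_pos rfl]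
  have hsm := fun K : ℕ => sum_mult (gK_nonneg (1 / 2 - η) H r K) (hg0 K) (hsum K) Y₁
  have hkey : ∀ h ∈ Finset.Icc 1 Y₁, ∀ l ∈ Finset.Icc 1 Y₂,
      (h : ℝ) ^ (-(1 / 2 + η)) * (l : ℝ) ^ (-(1 / 2 + r * η)) *
        ‖∑' k : ℕ, if 0 < ((k : ℝ) * l) ^ r ∧ ((k : ℝ) * l) ^ r ≤ Z then
          sk χ ψ r τ η H M u h l k else 0‖ ≤
      ∑ k ∈ Finset.Icc 1 L with k * l ≤ L,
        ((k * l : ℕ) : ℝ) ^ (-(1 / 2 - r * η)) * ∑' m, gK (1 / 2 - η) H r (k * l) (h * m) := by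
    intro h hh l hl
    rw [Finset.mem_Icc] at hh hl
    have hh0 : (0 : ℝ) < h := by exact_mod_cast hh.1
    have hl0 : (0 : ℝ) < l := by exact_mod_cast hl.1
    have hh1 : (1 : ℝ) ≤ h := by exact_mod_cast hh.1
    have hl1 : (1 : ℝ) ≤ l := by exact_mod_cast hl.1
    have e1 : (∑' k : ℕ, if 0 < ((k : ℝ) * l) ^ r ∧ ((k : ℝ) * l) ^ r ≤ Z then
          sk χ ψ r τ η H M u h l k else 0) =
        ∑ k ∈ Finset.Icc 1 L with k * l ≤ L,
          if 0 < ((k : ℝ) * l) ^ r ∧ ((k : ℝ) * l) ^ r ≤ Z then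
            sk χ ψ r τ η H M u h l k else 0 := by
      refine tsum_eq_sum fun k hk => ?_
      rw [if_neg]
      rintro ⟨h1, h2⟩
      apply hk
      have hk0 : k ≠ 0 := by
        rintro rfl
        rw [Nat.cast_zero, zero_mul, Real.zero_rpow hr.ne'] at h1
        exact lt_irrefl _ h1
      have hk1 : 1 ≤ k := Nat.pos_of_ne_zero hk0
      have h3 : ((k * l : ℕ) : ℝ) ≤ Z ^ (1 / r) := by
        rw [Nat.cast_mul]
        calc (k : ℝ) * l = (((k : ℝ) * l) ^ r) ^ (1 / r) := by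
              rw [← Real.rpow_mul (by positivity), mul_one_div_cancel hr.ne', Real.rpow_one]
          _ ≤ Z ^ (1 / r) := Real.rpow_le_rpow (by positivity) h2 (by positivity)
      have h4 : k * l ≤ L := by
        rw [hL]
        exact Nat.le_floor h3
      rw [Finset.mem_filter, Finset.mem_Icc]
      exact ⟨⟨hk1, (Nat.le_mul_of_pos_right k hl.1).trans h4⟩, h4⟩
    rw [e1]
    have hc : 0 ≤ (h : ℝ) ^ (-(1 / 2 + η)) * (l : ℝ) ^ (-(1 / 2 + r * η)) := by positivity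
    refine (mul_le_mul_of_nonneg_left (norm_sum_le _ _) hc).trans ?_
    rw [Finset.mul_sum]
    refine Finset.sum_le_sum fun k hk => ?_
    rw [Finset.mem_filter, Finset.mem_Icc] at hk
    have hk1 : (1 : ℝ) ≤ k := by exact_mod_cast hk.1.1
    have hk0 : (0 : ℝ) < k := by linarith
    have hT0 : 0 ≤ ∑' m, gK (1 / 2 - η) H r (k * l) (h * m) :=
      tsum_nonneg fun m => gK_nonneg _ _ _ _ _
    have e2 : ‖if 0 < ((k : ℝ) * l) ^ r ∧ ((k : ℝ) * l) ^ r ≤ Z then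
        sk χ ψ r τ η H M u h l k else 0‖ ≤ (k : ℝ) ^ (-(1 / 2 - r * η)) *
          ((h : ℝ) ^ (1 / 2 - η) * ∑' m, gK (1 / 2 - η) H r (k * l) (h * m)) := by
      split_ifs
      · refine (sk_le χ ψ hM hV hk.1.1).trans ?_
        refine mul_le_mul_of_nonneg_left ?_ (by positivity)
        have := Sg_le χ (a := 1 / 2 - η) (H := H) (r := r) (u := u) (K := k * l) (h := h)
          (Nat.mul_pos hk.1.1 hl.1) hh.1 ((hsm (k * l)).1 h hh.1)
        rw [Nat.cast_mul] at this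
        exact this
      · rw [norm_zero]
        positivity
    refine (mul_le_mul_of_nonneg_left e2 hc).trans ?_
    have e3 : (h : ℝ) ^ (-(1 / 2 + η)) * (h : ℝ) ^ (1 / 2 - η) ≤ 1 := by
      rw [← Real.rpow_add hh0]
      refine Real.rpow_le_one_of_one_le_of_nonpos hh1 ?_
      linarith
    have e4 : (l : ℝ) ^ (-(1 / 2 + r * η)) * (k : ℝ) ^ (-(1 / 2 - r * η)) ≤
        ((k * l : ℕ) : ℝ) ^ (-(1 / 2 - r * η)) := by
      rw [Nat.cast_mul, Real.mul_rpow hk0.le hl0.le, mul_comm]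
      refine mul_le_mul_of_nonneg_left ?_ (by positivity)
      refine Real.rpow_le_rpow_of_exponent_le hl1 ?_
      have : 0 ≤ r * η := by positivity
      linarith
    calc (h : ℝ) ^ (-(1 / 2 + η)) * (l : ℝ) ^ (-(1 / 2 + r * η)) *
          ((k : ℝ) ^ (-(1 / 2 - r * η)) *
            ((h : ℝ) ^ (1 / 2 - η) * ∑' m, gK (1 / 2 - η) H r (k * l) (h * m)))
        = ((h : ℝ) ^ (-(1 / 2 + η)) * (h : ℝ) ^ (1 / 2 - η)) *
          ((l : ℝ) ^ (-(1 / 2 + r * η)) * (k : ℝ) ^ (-(1 / 2 - r * η))) *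
            ∑' m, gK (1 / 2 - η) H r (k * l) (h * m) := by ring
      _ ≤ 1 * ((k * l : ℕ) : ℝ) ^ (-(1 / 2 - r * η)) *
            ∑' m, gK (1 / 2 - η) H r (k * l) (h * m) := by
          refine mul_le_mul_of_nonneg_right ?_ hT0
          exact mul_le_mul e3 e4 (by positivity) zero_le_one
      _ = _ := by rw [one_mul]
  refine (Finset.sum_le_sum fun h hh => Finset.sum_le_sum fun l hl => hkey h hh l hl).trans ?_
  rw [Finset.sum_comm]
  have hG : ∀ K : ℕ, 0 ≤ ∑ h ∈ Finset.Icc 1 Y₁,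
      (K : ℝ) ^ (-(1 / 2 - r * η)) * ∑' m, gK (1 / 2 - η) H r K (h * m) := fun K =>
    Finset.sum_nonneg fun h _ => mul_nonneg (by positivity)
      (tsum_nonneg fun m => gK_nonneg _ _ _ _ _)
  have h5 := sum_prod (G := fun K => ∑ h ∈ Finset.Icc 1 Y₁,
      (K : ℝ) ^ (-(1 / 2 - r * η)) * ∑' m, gK (1 / 2 - η) H r K (h * m)) hG Y₂ L
  calc ∑ l ∈ Finset.Icc 1 Y₂, ∑ h ∈ Finset.Icc 1 Y₁, ∑ k ∈ Finset.Icc 1 L with k * l ≤ L,
        ((k * l : ℕ) : ℝ) ^ (-(1 / 2 - r * η)) * ∑' m, gK (1 / 2 - η) H r (k * l) (h * m)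
      = ∑ l ∈ Finset.Icc 1 Y₂, ∑ k ∈ Finset.Icc 1 L with k * l ≤ L, ∑ h ∈ Finset.Icc 1 Y₁,
        ((k * l : ℕ) : ℝ) ^ (-(1 / 2 - r * η)) * ∑' m, gK (1 / 2 - η) H r (k * l) (h * m) :=
        Finset.sum_congr rfl fun l _ => Finset.sum_comm
    _ ≤ _ := h5
    _ ≤ ∑ K ∈ Finset.Icc 1 L, dv K * (K : ℝ) ^ (-(1 / 2 - r * η)) *
          ∑' n, dv n * gK (1 / 2 - η) H r K n := by
        refine Finset.sum_le_sum fun K _ => ?_
        rw [← Finset.mul_sum, mul_assoc]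
        have hdv0 : 0 ≤ dv K := by rw [dv]; positivity
        exact mul_le_mul_of_nonneg_left
          (mul_le_mul_of_nonneg_left (hsm K).2 (by positivity)) hdv0
    _ ≤ C := htot

/-- splitting `Kt` at `Z` -/
lemma Kt_split (χ ψ : PrimChar) {r τ η H M u Z : ℝ} {h l : ℕ} (hZ : 0 ≤ Z)
    (hs : Summable fun k : ℕ => ‖sk χ ψ r τ η H M u h l k‖) :
    Kt χ ψ r τ η H M u 0 h l =
      (∑' k : ℕ, if 0 < ((k : ℝ) * l) ^ r ∧ ((k : ℝ) * l) ^ r ≤ Z then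
        sk χ ψ r τ η H M u h l k else 0) + Kt χ ψ r τ η H M u Z h l := by
  classical
  have h1 : Summable fun k : ℕ => if 0 < ((k : ℝ) * l) ^ r ∧ ((k : ℝ) * l) ^ r ≤ Z then
        sk χ ψ r τ η H M u h l k else 0 := by
    refine Summable.of_norm_bounded hs fun k => ?_
    split_ifs
    · exact le_rfl
    · rw [norm_zero]
      exact norm_nonneg _
  have h2 : Summable fun k : ℕ => if Z < ((k : ℝ) * l) ^ r then
        sk χ ψ r τ η H M u h l k else 0 := by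
    refine Summable.of_norm_bounded hs fun k => ?_
    split_ifs
    · exact le_rfl
    · rw [norm_zero]
      exact norm_nonneg _
  have e1 : Kt χ ψ r τ η H M u 0 h l = ∑' k : ℕ, if 0 < ((k : ℝ) * l) ^ r then
        sk χ ψ r τ η H M u h l k else 0 := rfl
  have e2 : Kt χ ψ r τ η H M u Z h l = ∑' k : ℕ, if Z < ((k : ℝ) * l) ^ r then
        sk χ ψ r τ η H M u h l k else 0 := rfl
  rw [e1, e2, ← h1.tsum_add h2]
  refine tsum_congr fun k => ?_
  by_cases h3 : Z < ((k : ℝ) * l) ^ r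
  · rw [if_pos (lt_of_le_of_lt hZ h3), if_neg (fun h4 => not_lt.2 h4.2 h3), if_pos h3, zero_add]
  · rw [if_neg h3, add_zero]
    refine if_congr ?_ rfl rfl
    exact ⟨fun h4 => ⟨h4, not_lt.1 h3⟩, fun h4 => h4.1⟩

theorem e3 (hEX : T_EX) (hTV : T_TV) (hNT : T_NT) (hVV : T_VV) : T_E3 := by
  classical
  intro χ ψ r θ θ' hr1 hr2 hθ hθ' hθθ
  obtain ⟨δ, hδ⟩ : ∃ δ : ℝ, δ = (1 / 2 - θ - θ') / 2 := ⟨_, rfl⟩
  have hδ0 : 0 < δ := by rw [hδ]; linarith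
  obtain ⟨c₁, hc₁, N1⟩ := hNT χ ψ r hr1 hr2
  obtain ⟨ε₁, hε₁, N2⟩ := N1 δ hδ0 (by rw [hδ]; linarith)
  obtain ⟨ε₂, C₀, hε₂, hC₀, V1⟩ := hTV r hr1 hr2
  obtain ⟨ε, hε⟩ : ∃ ε : ℝ, ε = min (min ε₁ ε₂) (1 / 10) := ⟨_, rfl⟩
  have hε0 : 0 < ε := by
    rw [hε]
    exact lt_min (lt_min hε₁ hε₂) (by norm_num)
  have hεa : ε ≤ ε₁ := by rw [hε]; exact (min_le_left _ _).trans (min_le_left _ _)
  have hεb : ε ≤ ε₂ := by rw [hε]; exact (min_le_left _ _).trans (min_le_right _ _)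
  have hεc : ε ≤ 1 / 10 := by rw [hε]; exact min_le_right _ _
  refine ⟨min (1 / 4) c₁, C₀ + 2, ε, lt_min (by norm_num) hc₁, min_le_left _ _, by linarith,
    hε0, by linarith, ?_⟩
  intro R hR
  obtain ⟨T₁, X1⟩ := hEX χ ψ r ε R hr1 (by linarith) hε0 hεc hR
  obtain ⟨T₂, X2⟩ := V1 ε R hε0 hεb hR
  obtain ⟨T₃, X3⟩ := N2 ε R hε0 hεa hR
  refine ⟨max (max T₁ T₂) (max T₃ (Real.exp 1)), ?_⟩
  intro T u P hT hTu huT hPr hτ hη hb₁ hb₂ hY₁ hY₂
  have hT1 : T₁ ≤ T := le_trans (le_max_left _ _) (le_trans (le_max_left _ _) hT)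
  have hT2 : T₂ ≤ T := le_trans (le_max_right _ _) (le_trans (le_max_left _ _) hT)
  have hT3 : T₃ ≤ T := le_trans (le_max_left _ _) (le_trans (le_max_right _ _) hT)
  have hTe : Real.exp 1 ≤ T := le_trans (le_max_right _ _) (le_trans (le_max_right _ _) hT)
  have hTone : 1 ≤ T := by
    have := Real.add_one_le_exp 1
    linarith
  have hT0 : 0 < T := by linarith
  have hlog : 0 < Real.log T := by
    refine lt_of_lt_of_le zero_lt_one ?_
    rw [Real.le_log_iff_exp_le hT0]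
    exact hTe
  have hη0 : 0 ≤ R / Real.log T := by positivity
  have hτ1 : |P.τ| ≤ T / 4 := by
    have h1 : min (1 / 4) c₁ * T ≤ 1 / 4 * T :=
      mul_le_mul_of_nonneg_right (min_le_left _ _) hT0.le
    linarith
  have hτ2 : |P.τ| ≤ c₁ * T := hτ.trans (mul_le_mul_of_nonneg_right (min_le_right _ _) hT0.le)
  have hTθ : T ^ θ ≤ Real.sqrt T := by
    rw [Real.sqrt_eq_rpow]
    exact Real.rpow_le_rpow_of_exponent_le hTone (by linarith)
  have hTθ' : T ^ θ' ≤ Real.sqrt T := by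
    rw [Real.sqrt_eq_rpow]
    exact Real.rpow_le_rpow_of_exponent_le hTone (by linarith)
  have hsT : Real.sqrt T ≤ T := by
    rw [Real.sqrt_eq_rpow]
    conv_rhs => rw [← Real.rpow_one T]
    exact Real.rpow_le_rpow_of_exponent_le hTone (by norm_num)
  obtain ⟨Z, hZ⟩ : ∃ Z : ℝ, Z = T ^ (2 * r / (1 + r) - 4 * ε) := ⟨_, rfl⟩
  have hZ0 : 0 ≤ Z := by rw [hZ]; positivity
  obtain ⟨S1, S2⟩ := X2 T hT2
  rw [← hZ] at S2
  have hgK : ∀ K n : ℕ, dv n * gK (1 / 2 - R / Real.log T) (T ^ (1 - ε)) r K n =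
      dv n * (n : ℝ) ^ (-(1 / 2 - R / Real.log T)) *
        Real.exp (-((T ^ (1 - ε)) ^ 2 * (r * Real.log K - Real.log n) ^ 2 / 4)) := by
    intro K n
    rw [gK]
    split_ifs with hn
    · rw [hn, dv]
      simp
    · ring
  have hfirst := first_part χ ψ (r := r) (τ := P.τ) (η := R / Real.log T) (H := T ^ (1 - ε))
    (M := T ^ (1 + ε)) (u := u) (Z := Z) (C := C₀) (Y₁ := P.Y₁) (Y₂ := P.Y₂) (by linarith) hη0
    (by positivity) hZ0 hVV.1 (fun K => by simp only [hgK]; exact S1 K) (by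
      refine le_trans (le_of_eq ?_) S2
      refine Finset.sum_congr rfl fun K _ => ?_
      congr 1
      refine tsum_congr fun n => ?_
      rw [gK]
      split_ifs
      · rw [mul_zero]
      · ring)
  have hmain := X1 T u P hT1 hTu huT hPr hτ1 hη hb₁ hb₂ (hY₁.trans (hTθ.trans hsT))
    (hY₂.trans (hTθ'.trans hsT))
  -- the individual terms
  have hterm : ∀ h ∈ Finset.Icc 1 P.Y₁, ∀ l ∈ Finset.Icc 1 P.Y₂,
      ‖((P.b₁ h * P.b₂ l * ((h : ℝ) ^ (-(1 / 2 + P.η)) * (l : ℝ) ^ (-(1 / 2 + r * P.η))) : ℝ) :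
                ℂ) * co χ h * (starRingEnd ℂ) (co ψ l) *
              Kt χ ψ r P.τ P.η (T ^ (1 - ε)) (T ^ (1 + ε)) u 0 h l‖ ≤
        (h : ℝ) ^ (-(1 / 2 + R / Real.log T)) * (l : ℝ) ^ (-(1 / 2 + r * (R / Real.log T))) *
          ‖∑' k : ℕ, if 0 < ((k : ℝ) * l) ^ r ∧ ((k : ℝ) * l) ^ r ≤ Z then
            sk χ ψ r P.τ (R / Real.log T) (T ^ (1 - ε)) (T ^ (1 + ε)) u h l k else 0‖ +
        T ^ (-(1 / 2) + δ) := by
    intro h hh l hl
    rw [Finset.mem_Icc] at hh hl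
    have hh0 : (0 : ℝ) < h := by exact_mod_cast hh.1
    have hl0 : (0 : ℝ) < l := by exact_mod_cast hl.1
    have hh1 : (1 : ℝ) ≤ h := by exact_mod_cast hh.1
    have hl1 : (1 : ℝ) ≤ l := by exact_mod_cast hl.1
    have hhT : (h : ℝ) ≤ Real.sqrt T :=
      (Nat.cast_le.2 hh.2).trans (hY₁.trans hTθ)
    have hlT : (l : ℝ) ≤ Real.sqrt T :=
      (Nat.cast_le.2 hl.2).trans (hY₂.trans hTθ')
    obtain ⟨n1, n2⟩ := X3 T u P.τ h l hT3 hTu huT hτ2 hh.1 hl.1 hhT hlT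
    rw [← hZ] at n2
    rw [hη, Kt_split χ ψ hZ0 n1, norm_mul, norm_mul, norm_mul, RCLike.norm_conj,
      Complex.norm_real, Real.norm_eq_abs, abs_mul, abs_mul]
    have hq : 0 ≤ (h : ℝ) ^ (-(1 / 2 + R / Real.log T)) *
        (l : ℝ) ^ (-(1 / 2 + r * (R / Real.log T))) := by positivity
    rw [abs_of_nonneg hq]
    have hcoef : |P.b₁ h| * |P.b₂ l| * ((h : ℝ) ^ (-(1 / 2 + R / Real.log T)) *
        (l : ℝ) ^ (-(1 / 2 + r * (R / Real.log T)))) * ‖co χ h‖ * ‖co ψ l‖ ≤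
        (h : ℝ) ^ (-(1 / 2 + R / Real.log T)) *
          (l : ℝ) ^ (-(1 / 2 + r * (R / Real.log T))) := by
      have a1 := hb₁ h
      have a2 := hb₂ l
      have a3 := co_norm χ h
      have a4 := co_norm ψ l
      have a5 : |P.b₁ h| * |P.b₂ l| ≤ 1 := mul_le_one₀ a1 (abs_nonneg _) a2
      have a6 : |P.b₁ h| * |P.b₂ l| * ((h : ℝ) ^ (-(1 / 2 + R / Real.log T)) *
        (l : ℝ) ^ (-(1 / 2 + r * (R / Real.log T)))) ≤ (h : ℝ) ^ (-(1 / 2 + R / Real.log T)) *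
        (l : ℝ) ^ (-(1 / 2 + r * (R / Real.log T))) := mul_le_of_le_one_left hq a5
      have a7 : 0 ≤ |P.b₁ h| * |P.b₂ l| * ((h : ℝ) ^ (-(1 / 2 + R / Real.log T)) *
        (l : ℝ) ^ (-(1 / 2 + r * (R / Real.log T)))) := by positivity
      exact (mul_le_of_le_one_right (by positivity) a4).trans
        ((mul_le_of_le_one_right a7 a3).trans a6)
    refine (mul_le_mul_of_nonneg_right hcoef (norm_nonneg _)).trans ?_
    refine (mul_le_mul_of_nonneg_left (norm_add_le _ _) hq).trans ?_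
    rw [mul_add]
    refine add_le_add le_rfl ?_
    calc (h : ℝ) ^ (-(1 / 2 + R / Real.log T)) * (l : ℝ) ^ (-(1 / 2 + r * (R / Real.log T))) *
          ‖Kt χ ψ r P.τ (R / Real.log T) (T ^ (1 - ε)) (T ^ (1 + ε)) u Z h l‖
        ≤ ((h : ℝ) ^ (-(1 / 2 : ℝ)) * (l : ℝ) ^ (-(1 / 2 : ℝ))) *
          (T ^ (-(1 / 2) + δ) * Real.sqrt (h * l)) := by
          refine mul_le_mul ?_ n2 (norm_nonneg _) (by positivity)
          refine mul_le_mul (Real.rpow_le_rpow_of_exponent_le hh1 (by linarith))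
            (Real.rpow_le_rpow_of_exponent_le hl1 ?_) (by positivity) (by positivity)
          have : 0 ≤ r * (R / Real.log T) := by positivity
          linarith
      _ = T ^ (-(1 / 2) + δ) := by
          rw [Real.sqrt_eq_rpow, Real.mul_rpow hh0.le hl0.le]
          have b1 : (h : ℝ) ^ (-(1 / 2 : ℝ)) * (h : ℝ) ^ (1 / 2 : ℝ) = 1 := by
            rw [← Real.rpow_add hh0]
            norm_num
          have b2 : (l : ℝ) ^ (-(1 / 2 : ℝ)) * (l : ℝ) ^ (1 / 2 : ℝ) = 1 := by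
            rw [← Real.rpow_add hl0]
            norm_num
          calc (h : ℝ) ^ (-(1 / 2 : ℝ)) * (l : ℝ) ^ (-(1 / 2 : ℝ)) *
                (T ^ (-(1 / 2) + δ) * ((h : ℝ) ^ (1 / 2 : ℝ) * (l : ℝ) ^ (1 / 2 : ℝ)))
              = ((h : ℝ) ^ (-(1 / 2 : ℝ)) * (h : ℝ) ^ (1 / 2 : ℝ)) *
                ((l : ℝ) ^ (-(1 / 2 : ℝ)) * (l : ℝ) ^ (1 / 2 : ℝ)) * T ^ (-(1 / 2) + δ) := by
                ring
            _ = T ^ (-(1 / 2) + δ) := by rw [b1, b2]; ring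
  have hsumS : ‖∑ h ∈ Finset.Icc 1 P.Y₁, ∑ l ∈ Finset.Icc 1 P.Y₂,
      ((P.b₁ h * P.b₂ l * ((h : ℝ) ^ (-(1 / 2 + P.η)) * (l : ℝ) ^ (-(1 / 2 + r * P.η))) : ℝ) :
                ℂ) * co χ h * (starRingEnd ℂ) (co ψ l) *
              Kt χ ψ r P.τ P.η (T ^ (1 - ε)) (T ^ (1 + ε)) u 0 h l‖ ≤ C₀ + 1 := by
    refine (norm_sum_le _ _).trans ?_
    refine (Finset.sum_le_sum fun h hh => (norm_sum_le _ _).trans
      (Finset.sum_le_sum fun l hl => hterm h hh l hl)).trans ?_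
    simp only [Finset.sum_add_distrib]
    refine add_le_add hfirst ?_
    simp only [Finset.sum_const, nsmul_eq_mul, Nat.card_Icc, Nat.add_sub_cancel]
    calc (P.Y₁ : ℝ) * ((P.Y₂ : ℝ) * T ^ (-(1 / 2) + δ))
        ≤ T ^ θ * (T ^ θ' * T ^ (-(1 / 2) + δ)) := by
          refine mul_le_mul hY₁ (mul_le_mul_of_nonneg_right hY₂ (by positivity)) (by positivity)
            (by positivity)
      _ = T ^ (-δ) := by
          rw [← Real.rpow_add hT0, ← Real.rpow_add hT0]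
          congr 1
          rw [hδ]
          ring
      _ ≤ 1 := Real.rpow_le_one_of_one_le_of_nonpos hTone (by linarith)
  have hfin := norm_le_norm_add_norm_sub' (Ga (T ^ (1 - ε)) (T / 4) u
    (fun t : ℝ => U₁ χ P ((1 / 2 - P.η : ℝ) + t * I) *
            (starRingEnd ℂ) (U₂ ψ P ((1 / 2 - P.η : ℝ) + t * I))))
    (∑ h ∈ Finset.Icc 1 P.Y₁, ∑ l ∈ Finset.Icc 1 P.Y₂,
      ((P.b₁ h * P.b₂ l * ((h : ℝ) ^ (-(1 / 2 + P.η)) * (l : ℝ) ^ (-(1 / 2 + r * P.η))) : ℝ) :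
                ℂ) * co χ h * (starRingEnd ℂ) (co ψ l) *
              Kt χ ψ r P.τ P.η (T ^ (1 - ε)) (T ^ (1 + ε)) u 0 h l)
  linarith

end Pool.Agent.H27.PZ
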