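import Pool.Agent.H27.PZ.E3

/-!
Module EX of the PZ project (MP_9f0eeb_nt).
-/

set_option autoImplicit false

open Complex MeasureTheory Set Filter Topology

namespace Pool.Agent.H27.PZ

open Pool.Agent.H28.MZ
open Pool.Agent.H23.GLH (PrimChar)

/-! ### elementary facts -/

lemma ei_add (x y : ℝ) : ei (x + y) = ei x * ei y := by
  rw [ei, ei, ei, ← Complex.exp_add]
  congr 1
  push_cast
  ring

lemma ei_conj (x : ℝ) : (starRingEnd ℂ) (ei x) = ei (-x) := by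
  rw [ei, ei, ← Complex.exp_conj, map_mul, Complex.conj_ofReal, Complex.conj_I]
  congr 1
  push_cast
  ring

lemma ei_continuous : Continuous ei := by
  unfold ei
  fun_prop

lemma cpow_line {h : ℕ} (hh : h ≠ 0) (σ t : ℝ) :
    (h : ℂ) ^ (-((σ : ℂ) + t * I)) = (((h : ℝ) ^ (-σ) : ℝ) : ℂ) * ei (-(t * Real.log h)) := by
  have hh0 : (0 : ℝ) < h := by exact_mod_cast Nat.pos_of_ne_zero hh
  have hc : (h : ℂ) ≠ 0 := by exact_mod_cast hh
  rw [Complex.cpow_def_of_ne_zero hc, Real.rpow_def_of_pos hh0, ei, Complex.ofReal_exp,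
    ← Complex.exp_add, ← Complex.natCast_log]
  congr 1
  push_cast
  ring

lemma cpow_line_conj {h : ℕ} (hh : h ≠ 0) (σ t : ℝ) :
    (starRingEnd ℂ) ((h : ℂ) ^ (-((σ : ℂ) + t * I))) =
      (((h : ℝ) ^ (-σ) : ℝ) : ℂ) * ei (t * Real.log h) := by
  rw [cpow_line hh, map_mul, Complex.conj_ofReal, ei_conj, neg_neg]

lemma L_diff_ne_one (π : PrimChar) {s : ℂ} (hs : s ≠ 1) : DifferentiableAt ℂ π.L s := by
  let _ := π.q_ne
  exact DirichletCharacter.differentiableAt_LFunction π.χ s (Or.inl hs)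

lemma L_line_continuous (π : PrimChar) {a : ℝ} (ha : a < 1) {v : ℝ → ℝ} (hv : Continuous v) :
    Continuous fun t : ℝ => π.L ((a : ℂ) + v t * I) := by
  rw [continuous_iff_continuousAt]
  intro t
  have h1 : ContinuousAt π.L ((a : ℂ) + v t * I) := by
    refine (L_diff_ne_one π ?_).continuousAt
    intro h
    have := congrArg Complex.re h
    simp at this
    linarith
  have h2 : Continuous fun t : ℝ => (a : ℂ) + v t * I := by fun_prop
  exact ContinuousAt.comp (f := fun t : ℝ => (a : ℂ) + v t * I) h1 h2.continuousAt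

/-! ### Gaussian averages -/

section Ga

variable {H D u : ℝ}

lemma gauss_continuous (H u : ℝ) :
    Continuous fun t : ℝ => ((Real.exp (-((t - u) / H) ^ 2) : ℝ) : ℂ) := by
  fun_prop

lemma Ga_norm_le (hH : 0 < H) (hD : 0 ≤ D) {f : ℝ → ℂ} (hf : Continuous f) {B : ℝ}
    (hB : ∀ t ∈ Icc (u - D) (u + D), ‖f t‖ ≤ B) : ‖Ga H D u f‖ ≤ B := by
  have hpi := Real.pi_pos
  have hB0 : 0 ≤ B := (norm_nonneg _).trans (hB u ⟨by linarith, by linarith⟩)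
  have hg : (fun t : ℝ => Real.exp (-((t - u) / H) ^ 2)) =
      fun t : ℝ => Real.exp (-(1 / H ^ 2) * (t - u) ^ 2) := by
    funext t
    congr 1
    rw [div_pow]
    ring
  have hint : Integrable fun t : ℝ => Real.exp (-((t - u) / H) ^ 2) := by
    rw [hg]
    exact (integrable_exp_neg_mul_sq (show 0 < 1 / H ^ 2 by positivity)).comp_sub_right u
  have hval : ∫ t : ℝ, Real.exp (-((t - u) / H) ^ 2) = Real.sqrt Real.pi * H := by
    rw [hg, integral_sub_right_eq_self (fun t : ℝ => Real.exp (-(1 / H ^ 2) * t ^ 2)) u,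
      integral_gaussian]
    rw [div_div_eq_mul_div, div_one, Real.sqrt_mul hpi.le, Real.sqrt_sq hH.le]
  rw [Ga, norm_mul, Complex.norm_real, Real.norm_eq_abs, abs_of_nonneg (by positivity)]
  have h1 : ‖∫ t in (u - D)..(u + D), ((Real.exp (-((t - u) / H) ^ 2) : ℝ) : ℂ) * f t‖ ≤
      ∫ t in (u - D)..(u + D), B * Real.exp (-((t - u) / H) ^ 2) := by
    refine intervalIntegral.norm_integral_le_of_norm_le (by linarith) ?_ ?_
    · refine Eventually.of_forall fun t ht => ?_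
      rw [norm_mul, Complex.norm_real, Real.norm_eq_abs, abs_of_pos (Real.exp_pos _), mul_comm]
      exact mul_le_mul_of_nonneg_right (hB t ⟨ht.1.le, ht.2⟩) (Real.exp_pos _).le
    · exact (hint.const_mul B).intervalIntegrable
  have h2 : (∫ t in (u - D)..(u + D), B * Real.exp (-((t - u) / H) ^ 2)) ≤
      B * (Real.sqrt Real.pi * H) := by
    rw [intervalIntegral.integral_const_mul, intervalIntegral.integral_of_le (by linarith)]
    refine mul_le_mul_of_nonneg_left ?_ hB0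
    rw [← hval]
    exact setIntegral_le_integral hint (Eventually.of_forall fun t => (Real.exp_pos _).le)
  calc 1 / (Real.sqrt Real.pi * H) *
        ‖∫ t in (u - D)..(u + D), ((Real.exp (-((t - u) / H) ^ 2) : ℝ) : ℂ) * f t‖
      ≤ 1 / (Real.sqrt Real.pi * H) * (B * (Real.sqrt Real.pi * H)) :=
        mul_le_mul_of_nonneg_left (h1.trans h2) (by positivity)
    _ = B := by
        have : Real.sqrt Real.pi * H ≠ 0 := by positivity
        field_simp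

lemma Ga_add {f g : ℝ → ℂ} (hf : Continuous f) (hg : Continuous g) :
    Ga H D u (fun t => f t + g t) = Ga H D u f + Ga H D u g := by
  rw [Ga, Ga, Ga, ← mul_add, ← intervalIntegral.integral_add]
  · congr 1
    refine intervalIntegral.integral_congr fun t _ => ?_
    simp only [mul_add]
  · exact ((gauss_continuous H u).mul hf).intervalIntegrable _ _
  · exact ((gauss_continuous H u).mul hg).intervalIntegrable _ _

lemma Ga_const_mul (c : ℂ) (f : ℝ → ℂ) :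
    Ga H D u (fun t => c * f t) = c * Ga H D u f := by
  have h1 : ∀ t : ℝ, ((Real.exp (-((t - u) / H) ^ 2) : ℝ) : ℂ) * (c * f t) =
      c * (((Real.exp (-((t - u) / H) ^ 2) : ℝ) : ℂ) * f t) := fun t => by ring
  simp only [Ga, h1]
  rw [intervalIntegral.integral_const_mul]
  ring

lemma Ga_sum {ι : Type} (s : Finset ι) {f : ι → ℝ → ℂ} (hf : ∀ i ∈ s, Continuous (f i)) :
    Ga H D u (fun t => ∑ i ∈ s, f i t) = ∑ i ∈ s, Ga H D u (f i) := by
  classical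
  induction s using Finset.induction_on with
  | empty => simp [Ga]
  | insert i s hi ih =>
    rw [Finset.sum_insert hi, ← ih fun j hj => hf j (Finset.mem_insert_of_mem hj), ← Ga_add
      (hf i (Finset.mem_insert_self i s))
      (continuous_finsetSum s fun j hj => hf j (Finset.mem_insert_of_mem hj))]
    congr 1
    funext t
    rw [Finset.sum_insert hi]

lemma Ga_tsum (hD : 0 ≤ D) {f : ℕ → ℝ → ℂ} {B : ℕ → ℝ} (hf : ∀ k, Continuous (f k))
    (hB : Summable B) (hfB : ∀ k, ∀ t ∈ Icc (u - D) (u + D), ‖f k t‖ ≤ B k) :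
    (Summable fun k => Ga H D u (f k)) ∧
      Ga H D u (fun t => ∑' k, f k t) = ∑' k, Ga H D u (f k) := by
  have hle : u - D ≤ u + D := by linarith
  have hexp : ∀ t : ℝ, Real.exp (-((t - u) / H) ^ 2) ≤ 1 := by
    intro t
    refine Real.exp_le_one_iff.2 ?_
    have := sq_nonneg ((t - u) / H)
    linarith
  have h1 := hasSum_integral_of_summable_integral_norm
    (μ := volume.restrict (Ioc (u - D) (u + D)))
    (F := fun k t => ((Real.exp (-((t - u) / H) ^ 2) : ℝ) : ℂ) * f k t) (by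
      intro k
      exact (((gauss_continuous H u).mul (hf k)).intervalIntegrable (u - D) (u + D)).1) (by
      refine Summable.of_nonneg_of_le (fun k => integral_nonneg fun t => norm_nonneg _)
        (fun k => ?_) (hB.mul_left (2 * D))
      have h2 : ∫ t in Ioc (u - D) (u + D), ‖((Real.exp (-((t - u) / H) ^ 2) : ℝ) : ℂ) * f k t‖ ≤
          ∫ t in Ioc (u - D) (u + D), B k := by
        refine integral_mono_of_nonneg (Eventually.of_forall fun t => norm_nonneg _) ?_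
          ((ae_restrict_iff' measurableSet_Ioc).2 (Eventually.of_forall fun t ht => ?_))
        · exact integrable_const (B k)
        · dsimp only
          rw [norm_mul, Complex.norm_real, Real.norm_eq_abs, abs_of_pos (Real.exp_pos _)]
          exact (mul_le_of_le_one_left (norm_nonneg _) (hexp t)).trans
            (hfB k t ⟨ht.1.le, ht.2⟩)
      refine h2.trans (le_of_eq ?_)
      rw [setIntegral_const, smul_eq_mul, measureReal_def, Real.volume_Ioc,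
        ENNReal.toReal_ofReal (by linarith)]
      ring)
  have h3 : ∀ k, Ga H D u (f k) = (1 / (Real.sqrt Real.pi * H) : ℝ) *
      ∫ t in Ioc (u - D) (u + D), ((Real.exp (-((t - u) / H) ^ 2) : ℝ) : ℂ) * f k t := by
    intro k
    rw [Ga, intervalIntegral.integral_of_le hle]
  refine ⟨?_, ?_⟩
  · simp only [h3]
    exact h1.summable.mul_left _
  · simp only [h3]
    rw [tsum_mul_left, h1.tsum_eq, Ga, intervalIntegral.integral_of_le hle]
    congr 1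
    refine setIntegral_congr_fun measurableSet_Ioc fun t _ => ?_
    exact (tsum_mul_left).symm

end Ga

/-! ### the coefficients -/

lemma coef_le {x M C : ℝ} (hx : 0 ≤ x) (hM : 0 < M) (hV : ∀ y : ℝ, 0 < y → 0 ≤ V y ∧ V y ≤ 1)
    (hC : ∀ y : ℝ, 0 < y → V y ≤ C * y ^ (-(4 : ℝ))) {k : ℕ} (hk : 1 ≤ k) :
    0 ≤ (k : ℝ) ^ (-x) * V (k / M) ∧
      (k : ℝ) ^ (-x) * V (k / M) ≤ C * M ^ 4 * (1 / (k : ℝ) ^ 4) := by
  have hk1 : (1 : ℝ) ≤ k := by exact_mod_cast hk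
  have hk0 : (0 : ℝ) < k := by linarith
  obtain ⟨v0, v1⟩ := hV (k / M) (by positivity)
  refine ⟨mul_nonneg (by positivity) v0, ?_⟩
  have h1 : (k : ℝ) ^ (-x) ≤ 1 := Real.rpow_le_one_of_one_le_of_nonpos hk1 (by linarith)
  refine (mul_le_of_le_one_left v0 h1).trans ((hC _ (by positivity)).trans (le_of_eq ?_))
  rw [Real.rpow_neg (by positivity), show (4 : ℝ) = ((4 : ℕ) : ℝ) by norm_num,
    Real.rpow_natCast, div_pow]
  field_simp

lemma sum_four : Summable fun k : ℕ => 1 / (k : ℝ) ^ 4 :=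
  Real.summable_one_div_nat_pow.2 (by norm_num)

lemma sum_two : Summable fun k : ℕ => 1 / (k : ℝ) ^ 2 :=
  Real.summable_one_div_nat_pow.2 (by norm_num)

lemma growth (hSM : T_SM) (hVV : T_VV) (π : PrimChar) : ∃ T₀ : ℝ, 1 ≤ T₀ ∧ ∀ t x : ℝ, T₀ ≤ t →
    1 / 4 ≤ x → x ≤ 1 / 2 → ‖π.L (x + t * I)‖ ≤ t ^ 9 := by
  obtain ⟨hV, -, -, hV4, -⟩ := hVV
  obtain ⟨C, hC0, hC⟩ := hV4 4 (by norm_num)
  obtain ⟨T₁, hT₁⟩ := hSM π (1 / 2) 1 (by norm_num) le_rfl one_pos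
  obtain ⟨Z, hZ⟩ : ∃ Z : ℝ, Z = ∑' k : ℕ, 1 / (k : ℝ) ^ 4 := ⟨_, rfl⟩
  have hZ0 : 0 ≤ Z := hZ ▸ tsum_nonneg fun k => by positivity
  refine ⟨max 1 (max T₁ (C * Z + 1)), le_max_left _ _, fun t x ht hx1 hx2 => ?_⟩
  have ht1 : 1 ≤ t := (le_max_left _ _).trans ht
  have htT : T₁ ≤ t := ((le_max_left _ _).trans (le_max_right _ _)).trans ht
  have htC : C * Z + 1 ≤ t := ((le_max_right _ _).trans (le_max_right _ _)).trans ht
  have h1 := hT₁ t x (t ^ 2) htT hx1 hx2 (by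
    rw [← Real.rpow_natCast t 2]
    exact Real.rpow_le_rpow_of_exponent_le ht1 (by norm_num)) (by
    rw [← Real.rpow_natCast t 2]
    exact Real.rpow_le_rpow_of_exponent_le ht1 (by norm_num))
  have h2 : ‖∑' k : ℕ, co π k * (k : ℂ) ^ (-(x + t * I : ℂ)) * ((V (k / t ^ 2) : ℝ) : ℂ)‖ ≤
      C * (t ^ 2) ^ 4 * Z := by
    rw [hZ, ← tsum_mul_left]
    refine tsum_of_norm_bounded (sum_four.mul_left _).hasSum fun k => ?_
    rcases Nat.eq_zero_or_pos k with hk | hk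
    · rw [hk, co, if_pos rfl, zero_mul, zero_mul, norm_zero]
      positivity
    · have hk0 : (0 : ℝ) < k := by exact_mod_cast hk
      have h3 := coef_le (x := x) (M := t ^ 2) (by linarith) (by positivity) hV hC hk
      rw [cpow_line hk.ne', norm_mul, norm_mul, norm_mul, ei_norm, mul_one, Complex.norm_real,
        Complex.norm_real, Real.norm_eq_abs, Real.norm_eq_abs,
        abs_of_pos (show (0 : ℝ) < (k : ℝ) ^ (-x) by positivity),
        abs_of_nonneg (hV _ (by positivity)).1, mul_assoc]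
      exact (mul_le_of_le_one_left h3.1 (co_norm π k)).trans h3.2
  have h4 : t ^ (-(1 : ℝ)) ≤ 1 := Real.rpow_le_one_of_one_le_of_nonpos ht1 (by norm_num)
  have h5 : ‖π.L (x + t * I)‖ ≤ 1 + C * (t ^ 2) ^ 4 * Z := by
    have h6 := norm_add_le (π.L (x + t * I) - ∑' k : ℕ, co π k * (k : ℂ) ^ (-(x + t * I : ℂ)) *
        ((V (k / t ^ 2) : ℝ) : ℂ)) (∑' k : ℕ, co π k * (k : ℂ) ^ (-(x + t * I : ℂ)) *
        ((V (k / t ^ 2) : ℝ) : ℂ))
    rw [sub_add_cancel] at h6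
    linarith
  have h7 : (1 : ℝ) ≤ t ^ 8 := one_le_pow₀ ht1
  calc ‖π.L (x + t * I)‖ ≤ 1 + C * (t ^ 2) ^ 4 * Z := h5
    _ ≤ t ^ 8 + C * (t ^ 2) ^ 4 * Z := by linarith
    _ = (C * Z + 1) * t ^ 8 := by ring
    _ ≤ t * t ^ 8 := mul_le_mul_of_nonneg_right htC (by positivity)
    _ = t ^ 9 := by ring

lemma Bf_line (π : PrimChar) (b : ℕ → ℝ) (Y : ℕ) (σ t : ℝ) :
    Bf π b Y ((σ : ℂ) + t * I) = ∑ h ∈ Finset.Icc 1 Y,
      (b h : ℂ) * co π h * ((((h : ℝ) ^ (-σ) : ℝ) : ℂ) * ei (-(t * Real.log h))) := by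
  rw [Bf]
  refine Finset.sum_congr rfl fun h hh => ?_
  rw [Finset.mem_Icc] at hh
  rw [cpow_line (by omega)]

lemma Bf_norm (π : PrimChar) {b : ℕ → ℝ} (hb : ∀ h, |b h| ≤ 1) (Y : ℕ) {σ : ℝ} (hσ : 0 ≤ σ)
    (t : ℝ) : ‖Bf π b Y ((σ : ℂ) + t * I)‖ ≤ Y := by
  rw [Bf_line]
  refine (norm_sum_le _ _).trans ?_
  have h1 : ∀ h ∈ Finset.Icc 1 Y,
      ‖(b h : ℂ) * co π h * ((((h : ℝ) ^ (-σ) : ℝ) : ℂ) * ei (-(t * Real.log h)))‖ ≤ 1 := by
    intro h hh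
    rw [Finset.mem_Icc] at hh
    have hh1 : (1 : ℝ) ≤ h := by exact_mod_cast hh.1
    rw [norm_mul, norm_mul, norm_mul, ei_norm, mul_one, Complex.norm_real, Complex.norm_real,
      Real.norm_eq_abs, Real.norm_eq_abs, abs_of_nonneg (by positivity : (0:ℝ) ≤ (h : ℝ) ^ (-σ))]
    have h2 : (h : ℝ) ^ (-σ) ≤ 1 := Real.rpow_le_one_of_one_le_of_nonpos hh1 (by linarith)
    have h3 := mul_le_mul (hb h) (co_norm π h) (norm_nonneg _) zero_le_one
    calc |b h| * ‖co π h‖ * (h : ℝ) ^ (-σ) ≤ 1 * 1 * 1 :=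
          mul_le_mul h3 h2 (by positivity) (by norm_num)
      _ = 1 := by norm_num
  refine (Finset.sum_le_sum h1).trans ?_
  rw [Finset.sum_const, Nat.card_Icc, nsmul_eq_mul, mul_one]
  simp

lemma Bf_line_continuous (π : PrimChar) (b : ℕ → ℝ) (Y : ℕ) (σ : ℝ) {v : ℝ → ℝ} (hv : Continuous v) :
    Continuous fun t : ℝ => Bf π b Y ((σ : ℂ) + v t * I) := by
  simp only [Bf_line]
  refine continuous_finsetSum _ fun h _ => ?_
  refine continuous_const.mul (continuous_const.mul (ei_continuous.comp ?_))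
  fun_prop

lemma wl_line (r τ η t : ℝ) : wl r τ (((1 / 2 - η : ℝ) : ℂ) + t * I) =
    ((1 / 2 - r * η : ℝ) : ℂ) + ((r * t + τ : ℝ) : ℂ) * I := by
  rw [wl]
  push_cast
  ring

/-! ### the terms -/

/-- the coefficient of the expansion -/
noncomputable def cf (ψ : PrimChar) (r τ η M : ℝ) (l k : ℕ) : ℂ :=
  (starRingEnd ℂ) (co ψ k) * (((k : ℝ) ^ (-(1 / 2 - r * η)) * V (k / M) : ℝ) : ℂ) *
    ei (τ * (Real.log k + Real.log l))

/-- the term of the expansion -/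
noncomputable def Fk (χ ψ : PrimChar) (r τ η M : ℝ) (h l k : ℕ) (t : ℝ) : ℂ :=
  cf ψ r τ η M l k * (χ.L (((1 / 2 - η : ℝ) : ℂ) + t * I) *
    ei (t * Real.log (((k : ℝ) * l) ^ r / h)))

lemma cf_zero (ψ : PrimChar) (r τ η M : ℝ) (l : ℕ) : cf ψ r τ η M l 0 = 0 := by
  rw [cf, co, if_pos rfl, map_zero, zero_mul, zero_mul]

lemma cf_le (ψ : PrimChar) {r τ η M C : ℝ} (l k : ℕ) (hM : 0 < M) (hη : 0 ≤ 1 / 2 - r * η)
    (hC0 : 0 ≤ C) (hV : ∀ y : ℝ, 0 < y → 0 ≤ V y ∧ V y ≤ 1)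
    (hC : ∀ y : ℝ, 0 < y → V y ≤ C * y ^ (-(4 : ℝ))) :
    ‖cf ψ r τ η M l k‖ ≤ C * M ^ 4 * (1 / (k : ℝ) ^ 4) := by
  rcases Nat.eq_zero_or_pos k with hk | hk
  · rw [hk, cf_zero, norm_zero]
    positivity
  · have h3 := coef_le hη hM hV hC hk
    rw [cf, norm_mul, norm_mul, ei_norm, mul_one, RCLike.norm_conj, Complex.norm_real,
      Real.norm_eq_abs, abs_of_nonneg h3.1]
    exact (mul_le_of_le_one_left h3.1 (co_norm ψ k)).trans h3.2

lemma Fk_eq (χ ψ : PrimChar) {r τ η M : ℝ} {h l : ℕ} (hh : 1 ≤ h) (hl : 1 ≤ l) (k : ℕ) (t : ℝ) :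
    Fk χ ψ r τ η M h l k t = χ.L (((1 / 2 - η : ℝ) : ℂ) + t * I) * ei (-(t * Real.log h)) *
      ei ((r * t + τ) * Real.log l) * (starRingEnd ℂ) (co ψ k *
        (k : ℂ) ^ (-(((1 / 2 - r * η : ℝ) : ℂ) + ((r * t + τ : ℝ) : ℂ) * I)) *
          ((V (k / M) : ℝ) : ℂ)) := by
  rcases Nat.eq_zero_or_pos k with hk | hk
  · rw [Fk, hk, cf_zero, co, if_pos rfl, zero_mul, zero_mul, zero_mul, map_zero, mul_zero]
  · have hk0 : (0 : ℝ) < k := by exact_mod_cast hk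
    have hl0 : (0 : ℝ) < l := by exact_mod_cast hl
    have hh0 : (0 : ℝ) < h := by exact_mod_cast hh
    have e1 : Real.log (((k : ℝ) * l) ^ r / h) =
        r * (Real.log k + Real.log l) - Real.log h := by
      rw [Real.log_div (by positivity) hh0.ne', Real.log_rpow (by positivity),
        Real.log_mul hk0.ne' hl0.ne']
    have e2 : ei (τ * (Real.log k + Real.log l)) *
        ei (t * (r * (Real.log k + Real.log l) - Real.log h)) =
        ei (-(t * Real.log h)) * ei ((r * t + τ) * Real.log l) *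
          ei ((r * t + τ) * Real.log k) := by
      rw [← ei_add, ← ei_add, ← ei_add]
      congr 1
      ring
    rw [Fk, cf, e1, map_mul, map_mul, cpow_line_conj hk.ne', Complex.conj_ofReal]
    calc _ = (starRingEnd ℂ) (co ψ k) * (((k : ℝ) ^ (-(1 / 2 - r * η)) * V (k / M) : ℝ) : ℂ) *
          χ.L (((1 / 2 - η : ℝ) : ℂ) + t * I) * (ei (τ * (Real.log k + Real.log l)) *
            ei (t * (r * (Real.log k + Real.log l) - Real.log h))) := by ring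
      _ = _ := by
        rw [e2]
        push_cast
        ring

lemma Fk_continuous (χ ψ : PrimChar) (r τ : ℝ) {η : ℝ} (hη : 0 ≤ η) (M : ℝ) (h l k : ℕ) :
    Continuous (Fk χ ψ r τ η M h l k) := by
  unfold Fk
  refine continuous_const.mul ((L_line_continuous χ (a := 1 / 2 - η) (by linarith)
    (v := fun t => t) continuous_id).mul (ei_continuous.comp ?_))
  fun_prop

lemma tsum_Fk_continuous (χ ψ : PrimChar) {r τ η M C : ℝ} (h l : ℕ) (hM : 0 < M)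
    (hη0 : 0 ≤ η) (hη : 0 ≤ 1 / 2 - r * η)
    (hC0 : 0 ≤ C) (hV : ∀ y : ℝ, 0 < y → 0 ≤ V y ∧ V y ≤ 1)
    (hC : ∀ y : ℝ, 0 < y → V y ≤ C * y ^ (-(4 : ℝ))) :
    Continuous fun t => ∑' k, Fk χ ψ r τ η M h l k t := by
  have h1 : ∀ t, ∑' k, Fk χ ψ r τ η M h l k t = χ.L (((1 / 2 - η : ℝ) : ℂ) + t * I) *
      ∑' k, cf ψ r τ η M l k * ei (t * Real.log (((k : ℝ) * l) ^ r / h)) := by
    intro t
    rw [← tsum_mul_left]
    refine tsum_congr fun k => ?_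
    rw [Fk]
    ring
  simp only [h1]
  refine (L_line_continuous χ (a := 1 / 2 - η) (by linarith) (v := fun t => t)
    continuous_id).mul ?_
  refine continuous_tsum (u := fun k : ℕ => C * M ^ 4 * (1 / (k : ℝ) ^ 4)) (fun k => ?_)
    (sum_four.mul_left _) (fun k t => ?_)
  · exact continuous_const.mul (ei_continuous.comp (by fun_prop))
  · rw [norm_mul, ei_norm, mul_one]
    exact cf_le ψ l k hM hη hC0 hV hC

/-- the comparison for one pair `(h, l)` -/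
lemma hl_bound (χ ψ : PrimChar) {r τ η H D M u T C δ Lb : ℝ} {h l : ℕ} (hr1 : 1 < r)
    (hr2 : r < 2) (hM : 0 < M) (hT1 : 1 ≤ T) (hD : 0 ≤ D) (hη0 : 0 ≤ η)
    (hη : 0 ≤ 1 / 2 - r * η) (hδ : 0 ≤ δ)
    (hC0 : 0 ≤ C) (hV : ∀ y : ℝ, 0 < y → 0 ≤ V y ∧ V y ≤ 1)
    (hC : ∀ y : ℝ, 0 < y → V y ≤ C * y ^ (-(4 : ℝ))) (hh : 1 ≤ h) (hl : 1 ≤ l)
    (hlT : (l : ℝ) ≤ T)
    (hLb : ∀ t ∈ Icc (u - D) (u + D), ‖χ.L (((1 / 2 - η : ℝ) : ℂ) + t * I)‖ ≤ Lb)
    (hGL : ∀ x : ℝ, 0 < x → ‖Ga H D u (fun t : ℝ => χ.L (((1 / 2 - η : ℝ) : ℂ) + t * I) *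
      ei (t * Real.log x)) - Sg χ (1 / 2 - η) H u x‖ ≤ δ * (1 + x)) :
    ‖Ga H D u (fun t => ∑' k, Fk χ ψ r τ η M h l k t) - Kt χ ψ r τ η H M u 0 h l‖ ≤
      δ * (2 * T ^ 2) * (C * M ^ 4) * ∑' k : ℕ, 1 / (k : ℝ) ^ 2 := by
  have hl1 : (1 : ℝ) ≤ l := by exact_mod_cast hl
  have hh1 : (1 : ℝ) ≤ h := by exact_mod_cast hh
  have hLb0 : 0 ≤ Lb := (norm_nonneg _).trans (hLb u ⟨by linarith, by linarith⟩)
  obtain ⟨s1, e1⟩ := Ga_tsum (H := H) (u := u) hD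
    (f := fun k => Fk χ ψ r τ η M h l k) (B := fun k : ℕ => C * M ^ 4 * (1 / (k : ℝ) ^ 4) * Lb)
    (fun k => Fk_continuous χ ψ r τ hη0 M h l k) ((sum_four.mul_left _).mul_right _)
    (fun k t ht => by
      rw [Fk, norm_mul, norm_mul, ei_norm, mul_one]
      exact mul_le_mul (cf_le ψ l k hM hη hC0 hV hC) (hLb t ht) (norm_nonneg _) (by positivity))
  have hGk : ∀ k, Ga H D u (Fk χ ψ r τ η M h l k) = cf ψ r τ η M l k *
      Ga H D u (fun t : ℝ => χ.L (((1 / 2 - η : ℝ) : ℂ) + t * I) *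
        ei (t * Real.log (((k : ℝ) * l) ^ r / h))) := by
    intro k
    rw [← Ga_const_mul]
    rfl
  have hKt : Kt χ ψ r τ η H M u 0 h l =
      ∑' k : ℕ, cf ψ r τ η M l k * Sg χ (1 / 2 - η) H u (((k : ℝ) * l) ^ r / h) := by
    rw [Kt]
    refine tsum_congr fun k => ?_
    rcases Nat.eq_zero_or_pos k with hk | hk
    · rw [hk, cf_zero, zero_mul, if_neg]
      rw [Nat.cast_zero, zero_mul, Real.zero_rpow (by linarith)]
      exact lt_irrefl _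
    · have hk0 : (0 : ℝ) < k := by exact_mod_cast hk
      rw [if_pos (by positivity), cf]
  have hek : ∀ k : ℕ, ‖Ga H D u (Fk χ ψ r τ η M h l k) -
      cf ψ r τ η M l k * Sg χ (1 / 2 - η) H u (((k : ℝ) * l) ^ r / h)‖ ≤
      δ * (2 * T ^ 2) * (C * M ^ 4) * (1 / (k : ℝ) ^ 2) := by
    intro k
    rw [hGk, ← mul_sub, norm_mul]
    rcases Nat.eq_zero_or_pos k with hk | hk
    · rw [hk, cf_zero, norm_zero, zero_mul]
      positivity
    · have hk1 : (1 : ℝ) ≤ k := by exact_mod_cast hk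
      have hk0 : (0 : ℝ) < k := by linarith
      have hkl : (1 : ℝ) ≤ k * l := by nlinarith
      have hx : ((k : ℝ) * l) ^ r / h ≤ (k : ℝ) ^ 2 * T ^ 2 := by
        calc ((k : ℝ) * l) ^ r / h ≤ ((k : ℝ) * l) ^ r :=
              div_le_self (by positivity) hh1
          _ ≤ ((k : ℝ) * l) ^ (2 : ℝ) := Real.rpow_le_rpow_of_exponent_le hkl hr2.le
          _ = (k : ℝ) ^ 2 * (l : ℝ) ^ 2 := by
              rw [show (2 : ℝ) = ((2 : ℕ) : ℝ) by norm_num, Real.rpow_natCast, mul_pow]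
          _ ≤ (k : ℝ) ^ 2 * T ^ 2 := by gcongr
      have hkT : 1 ≤ (k : ℝ) ^ 2 * T ^ 2 := by
        have a1 : (1 : ℝ) ≤ (k : ℝ) ^ 2 := one_le_pow₀ hk1
        have a2 : (1 : ℝ) ≤ T ^ 2 := one_le_pow₀ hT1
        nlinarith
      have h4 := (hGL _ (show 0 < ((k : ℝ) * l) ^ r / h by positivity)).trans
        (mul_le_mul_of_nonneg_left (show 1 + ((k : ℝ) * l) ^ r / h ≤ 2 * ((k : ℝ) ^ 2 * T ^ 2) by
          linarith) hδ)
      refine (mul_le_mul (cf_le ψ l k hM hη hC0 hV hC) h4 (norm_nonneg _)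
        (by positivity)).trans (le_of_eq ?_)
      field_simp
  have s2 := Summable.of_norm_bounded (sum_two.mul_left (δ * (2 * T ^ 2) * (C * M ^ 4))) hek
  have s3 : Summable fun k : ℕ =>
      cf ψ r τ η M l k * Sg χ (1 / 2 - η) H u (((k : ℝ) * l) ^ r / h) := by
    have := s1.sub s2
    refine this.congr fun k => ?_
    ring
  rw [e1, hKt, ← s1.tsum_sub s3, ← tsum_mul_left]
  exact tsum_of_norm_bounded (sum_two.mul_left _).hasSum hek

/-- the coefficient of the pair `(h, l)` -/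
noncomputable def qc (χ ψ : PrimChar) (r η : ℝ) (b₁ b₂ : ℕ → ℝ) (h l : ℕ) : ℂ :=
  ((b₁ h * b₂ l * ((h : ℝ) ^ (-(1 / 2 + η)) * (l : ℝ) ^ (-(1 / 2 + r * η))) : ℝ) : ℂ) *
    co χ h * (starRingEnd ℂ) (co ψ l)

lemma qc_norm (χ ψ : PrimChar) {r η : ℝ} {b₁ b₂ : ℕ → ℝ} {h l : ℕ} (hb₁ : ∀ h, |b₁ h| ≤ 1)
    (hb₂ : ∀ h, |b₂ h| ≤ 1) (hη : 0 ≤ η) (hr : 0 ≤ r) (hh : 1 ≤ h) (hl : 1 ≤ l) :
    ‖qc χ ψ r η b₁ b₂ h l‖ ≤ 1 := by
  have hl1 : (1 : ℝ) ≤ l := by exact_mod_cast hl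
  have hh1 : (1 : ℝ) ≤ h := by exact_mod_cast hh
  have h1 : (h : ℝ) ^ (-(1 / 2 + η)) ≤ 1 :=
    Real.rpow_le_one_of_one_le_of_nonpos hh1 (by linarith)
  have h2 : (l : ℝ) ^ (-(1 / 2 + r * η)) ≤ 1 := by
    have : 0 ≤ r * η := mul_nonneg hr hη
    exact Real.rpow_le_one_of_one_le_of_nonpos hl1 (by linarith)
  have h3 : |b₁ h| * |b₂ l| ≤ 1 := mul_le_one₀ (hb₁ h) (abs_nonneg _) (hb₂ l)
  have h4 : (h : ℝ) ^ (-(1 / 2 + η)) * (l : ℝ) ^ (-(1 / 2 + r * η)) ≤ 1 :=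
    mul_le_one₀ h1 (by positivity) h2
  rw [qc, norm_mul, norm_mul, Complex.norm_real, Real.norm_eq_abs, abs_mul, abs_mul,
    abs_of_nonneg (by positivity : (0 : ℝ) ≤ (h : ℝ) ^ (-(1 / 2 + η)) *
      (l : ℝ) ^ (-(1 / 2 + r * η))), RCLike.norm_conj]
  have h5 : |b₁ h| * |b₂ l| * ((h : ℝ) ^ (-(1 / 2 + η)) * (l : ℝ) ^ (-(1 / 2 + r * η))) ≤ 1 :=
    mul_le_one₀ h3 (by positivity) h4
  have h6 : |b₁ h| * |b₂ l| * ((h : ℝ) ^ (-(1 / 2 + η)) * (l : ℝ) ^ (-(1 / 2 + r * η))) *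
      ‖co χ h‖ ≤ 1 := mul_le_one₀ h5 (norm_nonneg _) (co_norm χ h)
  exact mul_le_one₀ h6 (norm_nonneg _) (co_norm ψ l)

lemma main_eq (χ ψ : PrimChar) (r τ η M : ℝ) (b₁ b₂ : ℕ → ℝ) (Y₁ Y₂ : ℕ) (t : ℝ) :
    ∑ h ∈ Finset.Icc 1 Y₁, ∑ l ∈ Finset.Icc 1 Y₂, qc χ ψ r η b₁ b₂ h l *
        ∑' k, Fk χ ψ r τ η M h l k t =
      χ.L (((1 / 2 - η : ℝ) : ℂ) + t * I) * Bf χ b₁ Y₁ (((1 / 2 + η : ℝ) : ℂ) + t * I) *
        (starRingEnd ℂ) (Bf ψ b₂ Y₂
          (((1 / 2 + r * η : ℝ) : ℂ) + ((r * t + τ : ℝ) : ℂ) * I)) *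
        (starRingEnd ℂ) (∑' k : ℕ, co ψ k *
          (k : ℂ) ^ (-(((1 / 2 - r * η : ℝ) : ℂ) + ((r * t + τ : ℝ) : ℂ) * I)) *
            ((V (k / M) : ℝ) : ℂ)) := by
  rw [Bf_line, Bf_line, map_sum, mul_assoc (χ.L _), Finset.sum_mul_sum, Finset.mul_sum,
    Finset.sum_mul]
  refine Finset.sum_congr rfl fun h hh => ?_
  rw [Finset.mul_sum, Finset.sum_mul]
  refine Finset.sum_congr rfl fun l hl => ?_
  rw [Finset.mem_Icc] at hh hl
  have h1 : ∑' k, Fk χ ψ r τ η M h l k t =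
      χ.L (((1 / 2 - η : ℝ) : ℂ) + t * I) * ei (-(t * Real.log h)) *
        ei ((r * t + τ) * Real.log l) * (starRingEnd ℂ) (∑' k : ℕ, co ψ k *
          (k : ℂ) ^ (-(((1 / 2 - r * η : ℝ) : ℂ) + ((r * t + τ : ℝ) : ℂ) * I)) *
            ((V (k / M) : ℝ) : ℂ)) := by
    rw [Complex.conj_tsum, ← tsum_mul_left]
    exact tsum_congr fun k => Fk_eq χ ψ hh.1 hl.1 k t
  rw [h1, qc]
  simp only [map_mul, Complex.conj_ofReal, ei_conj, neg_neg]
  push_cast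
  ring

lemma num1 {T : ℝ} (hT : 3 ^ 9 * 2 ^ 22 ≤ T) :
    (3 * T) ^ 9 * T * T * (1 / (T / 2) ^ 20) ≤ 1 / 4 := by
  have hT1 : 1 ≤ T := le_trans (by norm_num) hT
  have hT0 : 0 < T := by linarith
  have h1 : (3 * T) ^ 9 * T * T * (1 / (T / 2) ^ 20) = 3 ^ 9 * 2 ^ 20 / T ^ 9 := by
    field_simp
  have h2 : T ≤ T ^ 9 := le_self_pow₀ hT1 (by norm_num)
  rw [h1, div_le_iff₀ (by positivity)]
  have h3 : (3 : ℝ) ^ 9 * 2 ^ 22 ≤ T ^ 9 := hT.trans h2
  have h4 : (3 : ℝ) ^ 9 * 2 ^ 22 = 4 * (3 ^ 9 * 2 ^ 20) := by norm_num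
  linarith

lemma num2 {T ε C Z : ℝ} (hT1 : 1 ≤ T) (hε : ε ≤ 1 / 10) (hC : 0 ≤ C) (hZ : 0 ≤ Z)
    (hT : 4 * C * Z ≤ T) :
    T * T * (T ^ (-(10 : ℝ)) * (2 * T ^ 2) * (C * (T ^ (1 + ε)) ^ 4) * Z) ≤ 1 / 2 := by
  have hT0 : 0 < T := by linarith
  have h1 : (T ^ (1 + ε)) ^ 4 ≤ T ^ 5 := by
    rw [← Real.rpow_natCast (T ^ (1 + ε)) 4, ← Real.rpow_mul hT0.le, ← Real.rpow_natCast T 5]
    refine Real.rpow_le_rpow_of_exponent_le hT1 ?_
    push_cast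
    linarith
  have h2 : T ^ (-(10 : ℝ)) = 1 / T ^ 10 := by
    rw [Real.rpow_neg hT0.le, show (10 : ℝ) = ((10 : ℕ) : ℝ) by norm_num, Real.rpow_natCast,
      one_div]
  rw [h2]
  calc T * T * (1 / T ^ 10 * (2 * T ^ 2) * (C * (T ^ (1 + ε)) ^ 4) * Z)
      ≤ T * T * (1 / T ^ 10 * (2 * T ^ 2) * (C * T ^ 5) * Z) := by gcongr
    _ = (4 * C * Z) * (1 / (2 * T)) := by
        field_simp
        ring
    _ ≤ T * (1 / (2 * T)) := mul_le_mul_of_nonneg_right hT (by positivity)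
    _ = 1 / 2 := by field_simp

theorem ex (hSM : T_SM) (hGL : T_GL) (hVV : T_VV) : T_EX := by
  intro χ ψ r ε R hr1 hr2 hε hε10 hR
  obtain ⟨T₁, hT₁1, hgr⟩ := growth hSM hVV χ
  obtain ⟨hV, -, -, hV4, -⟩ := hVV
  obtain ⟨C, hC0, hC⟩ := hV4 4 (by norm_num)
  obtain ⟨T₂, hT₂⟩ := hSM ψ (ε / 2) 20 (by linarith) (by linarith) (by norm_num)
  obtain ⟨T₃, hT₃⟩ := hGL χ ε 10 hε (by linarith) (by norm_num)
  obtain ⟨Z, hZ⟩ : ∃ Z : ℝ, Z = ∑' k : ℕ, 1 / (k : ℝ) ^ 2 := ⟨_, rfl⟩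
  have hZ0 : 0 ≤ Z := hZ ▸ tsum_nonneg fun k => by positivity
  have ev : ∀ᶠ T : ℝ in atTop, ((3 ^ 9 * 2 ^ 22 ≤ T ∧ 2 * T₁ ≤ T) ∧ (2 * T₂ ≤ T ∧ T₃ ≤ T) ∧
      4 * C * Z ≤ T) ∧ 8 * R ≤ Real.log T ∧ 25 ≤ T ^ (ε / 2) := by
    refine (((eventually_ge_atTop _).and (eventually_ge_atTop _)).and
      (((eventually_ge_atTop _).and (eventually_ge_atTop _)).and (eventually_ge_atTop _))).and
      ((Real.tendsto_log_atTop.eventually_ge_atTop _).and
        ((tendsto_rpow_atTop (by linarith)).eventually_ge_atTop _))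
  obtain ⟨T₀, hT₀⟩ := eventually_atTop.1 ev
  refine ⟨T₀, fun T u P hT hTu huT hPr hτ hPη hb₁ hb₂ hY₁ hY₂ => ?_⟩
  obtain ⟨⟨⟨c1, c2⟩, ⟨c3, c4⟩, c5⟩, c6, c7⟩ := hT₀ T hT
  have hT8 : 8 ≤ T := le_trans (by norm_num) c1
  have hT1 : 1 ≤ T := by linarith
  have hTpos : 0 < T := by linarith
  have hlog : 0 < Real.log T := by linarith
  obtain ⟨η, hη⟩ : ∃ η : ℝ, η = P.η := ⟨_, rfl⟩
  obtain ⟨τ, hτe⟩ : ∃ τ : ℝ, τ = P.τ := ⟨_, rfl⟩
  obtain ⟨M, hM⟩ : ∃ M : ℝ, M = T ^ (1 + ε) := ⟨_, rfl⟩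
  obtain ⟨H, hH⟩ : ∃ H : ℝ, H = T ^ (1 - ε) := ⟨_, rfl⟩
  rw [← hτe] at hτ
  rw [← hη] at hPη
  have hη0 : 0 ≤ η := by rw [hPη]; positivity
  have hη8 : η ≤ 1 / 8 := by
    rw [hPη, div_le_iff₀ hlog]
    linarith
  have hrη : r * η ≤ 1 / 4 := by
    calc r * η ≤ 2 * (1 / 8) := mul_le_mul hr2.le hη8 hη0 (by norm_num)
      _ = 1 / 4 := by norm_num
  have hrη0 : 0 ≤ r * η := by positivity
  have hM0 : 0 < M := by rw [hM]; positivity
  have hH0 : 0 < H := by rw [hH]; positivity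
  obtain ⟨hτ1, hτ2⟩ := abs_le.1 hτ
  have hwin : ∀ t ∈ Icc (u - T / 4) (u + T / 4), 3 / 4 * T ≤ t ∧ t ≤ 9 / 4 * T := by
    intro t ht
    exact ⟨by linarith [ht.1], by linarith [ht.2]⟩
  have hv : ∀ t ∈ Icc (u - T / 4) (u + T / 4), T / 2 ≤ r * t + τ ∧ r * t + τ ≤ 5 * T := by
    intro t ht
    obtain ⟨h1, h2⟩ := hwin t ht
    have ht0 : 0 ≤ t := by linarith
    have h3 : t ≤ r * t := le_mul_of_one_le_left ht0 hr1.le
    have h4 : r * t ≤ 2 * t := mul_le_mul_of_nonneg_right hr2.le ht0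
    exact ⟨by linarith, by linarith⟩
  have hLb : ∀ t ∈ Icc (u - T / 4) (u + T / 4),
      ‖χ.L (((1 / 2 - η : ℝ) : ℂ) + t * I)‖ ≤ (3 * T) ^ 9 := by
    intro t ht
    obtain ⟨h1, h2⟩ := hwin t ht
    refine (hgr t (1 / 2 - η) (by linarith) (by linarith) (by linarith)).trans ?_
    exact pow_le_pow_left₀ (by linarith) (by linarith) 9
  have hSMb : ∀ t ∈ Icc (u - T / 4) (u + T / 4),
      ‖ψ.L (((1 / 2 - r * η : ℝ) : ℂ) + ((r * t + τ : ℝ) : ℂ) * I) - ∑' k : ℕ, co ψ k *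
        (k : ℂ) ^ (-(((1 / 2 - r * η : ℝ) : ℂ) + ((r * t + τ : ℝ) : ℂ) * I)) *
          ((V (k / M) : ℝ) : ℂ)‖ ≤ 1 / (T / 2) ^ 20 := by
    intro t ht
    obtain ⟨h1, h2⟩ := hv t ht
    have hv0 : 0 < r * t + τ := by linarith
    refine (hT₂ (r * t + τ) (1 / 2 - r * η) M (by linarith) (by linarith) (by linarith) ?_
      ?_).trans ?_
    · calc (r * t + τ) ^ (1 + ε / 2) ≤ (5 * T) ^ (1 + ε / 2) :=
            Real.rpow_le_rpow hv0.le h2 (by linarith)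
        _ = 5 ^ (1 + ε / 2) * T ^ (1 + ε / 2) := Real.mul_rpow (by norm_num) hTpos.le
        _ ≤ 5 ^ (2 : ℝ) * T ^ (1 + ε / 2) := by
            refine mul_le_mul_of_nonneg_right ?_ (by positivity)
            exact Real.rpow_le_rpow_of_exponent_le (by norm_num) (by linarith)
        _ ≤ T ^ (ε / 2) * T ^ (1 + ε / 2) := by
            refine mul_le_mul_of_nonneg_right ?_ (by positivity)
            refine le_trans (le_of_eq ?_) c7
            rw [show (2 : ℝ) = ((2 : ℕ) : ℝ) by norm_num, Real.rpow_natCast]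
            norm_num
        _ = M := by
            rw [hM, ← Real.rpow_add hTpos]
            congr 1
            ring
    · calc M ≤ T ^ (2 : ℝ) := by
            rw [hM]
            exact Real.rpow_le_rpow_of_exponent_le hT1 (by linarith)
        _ = T ^ 2 := by rw [show (2 : ℝ) = ((2 : ℕ) : ℝ) by norm_num, Real.rpow_natCast]
        _ ≤ (T / 2) ^ 3 := by
            have : 0 ≤ T ^ 2 * (T - 8) := mul_nonneg (by positivity) (by linarith)
            nlinarith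
        _ ≤ (r * t + τ) ^ 3 := pow_le_pow_left₀ (by linarith) h1 3
        _ = (r * t + τ) ^ (3 : ℝ) := by
            rw [show (3 : ℝ) = ((3 : ℕ) : ℝ) by norm_num, Real.rpow_natCast]
    · rw [Real.rpow_neg hv0.le, show (20 : ℝ) = ((20 : ℕ) : ℝ) by norm_num, Real.rpow_natCast,
        ← one_div]
      exact one_div_le_one_div_of_le (by positivity) (pow_le_pow_left₀ (by linarith) h1 20)
  have hU : ∀ t : ℝ, U₁ χ P (((1 / 2 - η : ℝ) : ℂ) + t * I) *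
      (starRingEnd ℂ) (U₂ ψ P (((1 / 2 - η : ℝ) : ℂ) + t * I)) =
      χ.L (((1 / 2 - η : ℝ) : ℂ) + t * I) * Bf χ P.b₁ P.Y₁ (((1 / 2 + η : ℝ) : ℂ) + t * I) *
        (starRingEnd ℂ) (Bf ψ P.b₂ P.Y₂
          (((1 / 2 + r * η : ℝ) : ℂ) + ((r * t + τ : ℝ) : ℂ) * I)) *
        (starRingEnd ℂ) (ψ.L (((1 / 2 - r * η : ℝ) : ℂ) + ((r * t + τ : ℝ) : ℂ) * I)) := by
    intro t
    have e1 : (((1 / 2 - η : ℝ) : ℂ) + t * I) + 2 * P.η = ((1 / 2 + η : ℝ) : ℂ) + t * I := by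
      rw [← hη]
      push_cast
      ring
    have e2 : ((1 / 2 - r * η : ℝ) : ℂ) + ((r * t + τ : ℝ) : ℂ) * I + 2 * r * P.η =
        ((1 / 2 + r * η : ℝ) : ℂ) + ((r * t + τ : ℝ) : ℂ) * I := by
      rw [← hη]
      push_cast
      ring
    rw [U₁, U₂, hPr, ← hτe, wl_line, e1, e2, map_mul]
    ring
  obtain ⟨q, hq⟩ : ∃ q : ℕ → ℕ → ℂ, q = qc χ ψ r η P.b₁ P.b₂ := ⟨_, rfl⟩
  obtain ⟨mn, hmn⟩ : ∃ mn : ℝ → ℂ, mn = fun t => ∑ h ∈ Finset.Icc 1 P.Y₁,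
    ∑ l ∈ Finset.Icc 1 P.Y₂, q h l * ∑' k, Fk χ ψ r τ η M h l k t := ⟨_, rfl⟩
  obtain ⟨g, hg⟩ : ∃ g : ℝ → ℂ, g = fun t : ℝ => U₁ χ P (((1 / 2 - η : ℝ) : ℂ) + t * I) *
      (starRingEnd ℂ) (U₂ ψ P (((1 / 2 - η : ℝ) : ℂ) + t * I)) := ⟨_, rfl⟩
  have hFc : ∀ h l : ℕ, Continuous fun t => ∑' k, Fk χ ψ r τ η M h l k t := fun h l =>
    tsum_Fk_continuous χ ψ h l hM0 hη0 (by linarith) hC0.le hV hC
  have hmc : Continuous mn := by
    rw [hmn]
    exact continuous_finsetSum _ fun h _ => continuous_finsetSum _ fun l _ =>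
      continuous_const.mul (hFc h l)
  have hgc : Continuous g := by
    rw [hg]
    simp only [hU]
    refine ((((L_line_continuous χ (a := 1 / 2 - η) (by linarith) (v := fun t => t)
      continuous_id).mul (Bf_line_continuous χ _ _ _ (v := fun t => t) continuous_id)).mul
      (Complex.continuous_conj.comp (Bf_line_continuous ψ _ _ _ (v := fun t => r * t + τ)
        (by fun_prop)))).mul (Complex.continuous_conj.comp
        (L_line_continuous ψ (a := 1 / 2 - r * η) (by linarith) (v := fun t => r * t + τ)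
          (by fun_prop))))
  have hE : ∀ t ∈ Icc (u - T / 4) (u + T / 4), ‖g t - mn t‖ ≤ 1 / 4 := by
    intro t ht
    have e1 : g t - mn t = χ.L (((1 / 2 - η : ℝ) : ℂ) + t * I) *
        Bf χ P.b₁ P.Y₁ (((1 / 2 + η : ℝ) : ℂ) + t * I) *
        (starRingEnd ℂ) (Bf ψ P.b₂ P.Y₂
          (((1 / 2 + r * η : ℝ) : ℂ) + ((r * t + τ : ℝ) : ℂ) * I)) *
        (starRingEnd ℂ) (ψ.L (((1 / 2 - r * η : ℝ) : ℂ) + ((r * t + τ : ℝ) : ℂ) * I) -
          ∑' k : ℕ, co ψ k *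
        (k : ℂ) ^ (-(((1 / 2 - r * η : ℝ) : ℂ) + ((r * t + τ : ℝ) : ℂ) * I)) *
          ((V (k / M) : ℝ) : ℂ)) := by
      rw [hg, hmn, hq]
      simp only []
      rw [hU, main_eq, map_sub]
      ring
    rw [e1, norm_mul, norm_mul, norm_mul, RCLike.norm_conj, RCLike.norm_conj]
    have n1 := hLb t ht
    have n2 := (Bf_norm χ hb₁ P.Y₁ (show 0 ≤ 1 / 2 + η by linarith) t).trans hY₁
    have n3 := (Bf_norm ψ hb₂ P.Y₂ (show 0 ≤ 1 / 2 + r * η by linarith) (r * t + τ)).trans hY₂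
    have n4 := hSMb t ht
    refine le_trans ?_ (num1 c1)
    exact mul_le_mul (mul_le_mul (mul_le_mul n1 n2 (norm_nonneg _) (by positivity)) n3
      (norm_nonneg _) (by positivity)) n4 (norm_nonneg _) (by positivity)
  have hGaE := Ga_norm_le hH0 (show 0 ≤ T / 4 by linarith) (hgc.sub hmc) hE
  have hGag : Ga H (T / 4) u g = Ga H (T / 4) u (fun t => g t - mn t) + Ga H (T / 4) u mn := by
    have h1 : (fun t => g t - mn t + mn t) = g := by
      funext t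
      ring
    rw [← Ga_add (f := fun t => g t - mn t) (g := mn) (hgc.sub hmc) hmc, h1]
  have hGam : Ga H (T / 4) u mn = ∑ h ∈ Finset.Icc 1 P.Y₁, ∑ l ∈ Finset.Icc 1 P.Y₂,
      q h l * Ga H (T / 4) u (fun t => ∑' k, Fk χ ψ r τ η M h l k t) := by
    rw [hmn, Ga_sum (f := fun h t => ∑ l ∈ Finset.Icc 1 P.Y₂, q h l *
      ∑' k, Fk χ ψ r τ η M h l k t) _ fun h _ => continuous_finsetSum _ fun l _ =>
      continuous_const.mul (hFc h l)]
    refine Finset.sum_congr rfl fun h _ => ?_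
    rw [Ga_sum (f := fun l t => q h l * ∑' k, Fk χ ψ r τ η M h l k t) _ fun l _ =>
      continuous_const.mul (hFc h l)]
    refine Finset.sum_congr rfl fun l _ => ?_
    rw [Ga_const_mul]
  have hdiff : ∀ h ∈ Finset.Icc 1 P.Y₁, ∀ l ∈ Finset.Icc 1 P.Y₂,
      ‖q h l * Ga H (T / 4) u (fun t => ∑' k, Fk χ ψ r τ η M h l k t) -
        q h l * Kt χ ψ r τ η H M u 0 h l‖ ≤
      T ^ (-(10 : ℝ)) * (2 * T ^ 2) * (C * M ^ 4) * Z := by
    intro h hh l hl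
    rw [Finset.mem_Icc] at hh hl
    have hlT : (l : ℝ) ≤ T := le_trans (Nat.cast_le.2 hl.2) hY₂
    have h1 := hl_bound χ ψ (r := r) (τ := τ) (η := η) (H := H) (D := T / 4) (M := M) (u := u)
      (T := T) (C := C) (δ := T ^ (-(10 : ℝ))) hr1 hr2 hM0 hT1 (by linarith) hη0 (by linarith)
      (by positivity) hC0.le hV hC hh.1 hl.1 hlT hLb (fun x hx => by
        rw [hH]
        exact hT₃ T u (1 / 2 - η) x c4 hTu huT (by linarith) (by linarith) hx)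
    rw [← hZ] at h1
    rw [← mul_sub, norm_mul, hq]
    exact (mul_le_of_le_one_left (norm_nonneg _)
      (qc_norm χ ψ hb₁ hb₂ hη0 (by linarith) hh.1 hl.1)).trans h1
  have hfin : ‖Ga H (T / 4) u mn - ∑ h ∈ Finset.Icc 1 P.Y₁, ∑ l ∈ Finset.Icc 1 P.Y₂,
      q h l * Kt χ ψ r τ η H M u 0 h l‖ ≤ 1 / 2 := by
    rw [hGam, ← Finset.sum_sub_distrib]
    have hb0 : 0 ≤ T ^ (-(10 : ℝ)) * (2 * T ^ 2) * (C * M ^ 4) * Z := by positivity
    calc _ ≤ ∑ h ∈ Finset.Icc 1 P.Y₁, ∑ l ∈ Finset.Icc 1 P.Y₂,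
          T ^ (-(10 : ℝ)) * (2 * T ^ 2) * (C * M ^ 4) * Z := by
          refine norm_sum_le_of_le _ fun h hh => ?_
          rw [← Finset.sum_sub_distrib]
          exact norm_sum_le_of_le _ fun l hl => hdiff h hh l hl
      _ = (P.Y₁ : ℝ) * P.Y₂ * (T ^ (-(10 : ℝ)) * (2 * T ^ 2) * (C * M ^ 4) * Z) := by
          rw [Finset.sum_const, Finset.sum_const, Nat.card_Icc, Nat.card_Icc, nsmul_eq_mul,
            nsmul_eq_mul, Nat.add_sub_cancel, Nat.add_sub_cancel]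
          ring
      _ ≤ T * T * (T ^ (-(10 : ℝ)) * (2 * T ^ 2) * (C * M ^ 4) * Z) := by
          refine mul_le_mul_of_nonneg_right ?_ hb0
          exact mul_le_mul hY₁ hY₂ (Nat.cast_nonneg _) hTpos.le
      _ ≤ 1 / 2 := by
          rw [hM]
          exact num2 hT1 hε10 hC0.le hZ0 c5
  have hgoal : ‖Ga H (T / 4) u g - ∑ h ∈ Finset.Icc 1 P.Y₁, ∑ l ∈ Finset.Icc 1 P.Y₂,
      q h l * Kt χ ψ r τ η H M u 0 h l‖ ≤ 1 := by
    rw [hGag, add_sub_assoc]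
    refine (norm_add_le _ _).trans ?_
    have h1 : ‖Ga H (T / 4) u (fun t => g t - mn t)‖ ≤ 1 / 4 := hGaE
    linarith
  rw [hg, hq] at hgoal
  rw [← hη, ← hτe, ← hH, ← hM]
  exact hgoal

end Pool.Agent.H27.PZ
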