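import Pool.Agent.H28.MZ.Targets

/-!
Module IU of the PZ project (MP_9f0eeb_nt).
-/

set_option autoImplicit false

open Complex MeasureTheory Set Filter Topology

namespace Pool.Agent.H27.PZ

open Pool.Agent.H28.MZ
open Pool.Agent.H23.GLH (PrimChar)

lemma L_differentiableAt (π : PrimChar) {s : ℂ} (hs : s.im ≠ 0) : DifferentiableAt ℂ π.L s := by
  letI := π.q_ne
  refine DirichletCharacter.differentiableAt_LFunction π.χ s (Or.inl ?_)
  intro h
  rw [h] at hs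
  exact hs rfl

lemma Bf_continuous (π : PrimChar) (b : ℕ → ℝ) (Y : ℕ) : Continuous (Bf π b Y) := by
  unfold Bf
  refine continuous_finsetSum _ fun h hh => ?_
  have h1 : (h : ℂ) ≠ 0 := by
    rw [Finset.mem_Icc] at hh
    exact_mod_cast (by omega : h ≠ 0)
  exact continuous_const.mul (continuous_neg.const_cpow (Or.inl h1))

/-- continuity of `t ↦ L(a + i (x t + y))` on a set where the ordinate does not vanish -/
lemma L_line_continuousOn (π : PrimChar) (a x y : ℝ) {S : Set ℝ}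
    (hS : ∀ t ∈ S, x * t + y ≠ 0) :
    ContinuousOn (fun t : ℝ => π.L ((a : ℂ) + (x * t + y : ℝ) * I)) S := by
  intro t ht
  have h1 : ContinuousAt π.L ((a : ℂ) + (x * t + y : ℝ) * I) := by
    refine (L_differentiableAt π ?_).continuousAt
    simpa using hS t ht
  have h2 : Continuous fun t : ℝ => (a : ℂ) + (x * t + y : ℝ) * I := by fun_prop
  exact (ContinuousAt.comp (f := fun t : ℝ => (a : ℂ) + (x * t + y : ℝ) * I) h1
    h2.continuousAt).continuousWithinAt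

lemma sn_continuous (T : ℝ) : Continuous (sn T) := by
  unfold sn
  fun_prop

lemma sn_nonneg {T t : ℝ} (hT : 0 < T) (h1 : T ≤ t) (h2 : t ≤ 2 * T) : 0 ≤ sn T t := by
  unfold sn
  refine Real.sin_nonneg_of_nonneg_of_le_pi ?_ ?_
  · have : 0 ≤ t - T := by linarith
    have := Real.pi_pos
    positivity
  · rw [div_le_iff₀ hT]
    have := Real.pi_pos
    nlinarith

lemma sn_le_one (T t : ℝ) : sn T t ≤ 1 := Real.sin_le_one _

/-- the quadratic expansion -/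
lemma expand (T c : ℝ) (hT : 0 < T) {u₁ u₂ : ℝ → ℂ} (h₁ : ContinuousOn u₁ (Icc (T / 2) (3 * T)))
    (h₂ : ContinuousOn u₂ (Icc (T / 2) (3 * T))) :
    (∫ t in T..(2 * T), sn T t * ‖(1 - (c : ℂ)) * u₁ t + c * u₂ t‖ ^ 2) =
      (1 - c) ^ 2 * (∫ t in T..(2 * T), sn T t * ‖u₁ t‖ ^ 2) +
      c ^ 2 * (∫ t in T..(2 * T), sn T t * ‖u₂ t‖ ^ 2) +
      2 * c * (1 - c) * (∫ t in T..(2 * T), (sn T t : ℂ) * (u₁ t * (starRingEnd ℂ) (u₂ t))).re := by
  have hsub : uIcc T (2 * T) ⊆ Icc (T / 2) (3 * T) := by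
    rw [uIcc_of_le (by linarith)]
    exact Icc_subset_Icc (by linarith) (by linarith)
  have c1 := h₁.mono hsub
  have c2 := h₂.mono hsub
  have cs : ContinuousOn (sn T) (uIcc T (2 * T)) := (sn_continuous T).continuousOn
  have i1 : IntervalIntegrable (fun t => (1 - c) ^ 2 * (sn T t * ‖u₁ t‖ ^ 2)) volume T (2 * T) :=
    (continuousOn_const.mul (cs.mul (c1.norm.pow 2))).intervalIntegrable
  have i2 : IntervalIntegrable (fun t => c ^ 2 * (sn T t * ‖u₂ t‖ ^ 2)) volume T (2 * T) :=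
    (continuousOn_const.mul (cs.mul (c2.norm.pow 2))).intervalIntegrable
  have cF : ContinuousOn (fun t => (sn T t : ℂ) * (u₁ t * (starRingEnd ℂ) (u₂ t)))
      (uIcc T (2 * T)) :=
    (continuous_ofReal.comp_continuousOn cs).mul
      (c1.mul (continuous_conj.comp_continuousOn c2))
  have i3 : IntervalIntegrable (fun t => 2 * c * (1 - c) *
      ((sn T t : ℂ) * (u₁ t * (starRingEnd ℂ) (u₂ t))).re) volume T (2 * T) :=
    (continuousOn_const.mul (continuous_re.comp_continuousOn cF)).intervalIntegrable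
  have hre : (∫ t in T..(2 * T), (sn T t : ℂ) * (u₁ t * (starRingEnd ℂ) (u₂ t))).re =
      ∫ t in T..(2 * T), ((sn T t : ℂ) * (u₁ t * (starRingEnd ℂ) (u₂ t))).re :=
    (Complex.reCLM.intervalIntegral_comp_comm cF.intervalIntegrable).symm
  rw [hre, ← intervalIntegral.integral_const_mul, ← intervalIntegral.integral_const_mul,
    ← intervalIntegral.integral_const_mul, ← intervalIntegral.integral_add i1 i2,
    ← intervalIntegral.integral_add (i1.add i2) i3]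
  refine intervalIntegral.integral_congr fun t _ => ?_
  have e1 : ((sn T t : ℂ) * (u₁ t * (starRingEnd ℂ) (u₂ t))).re =
      sn T t * (u₁ t * (starRingEnd ℂ) (u₂ t)).re := by
    rw [re_ofReal_mul]
  rw [e1, ← Complex.normSq_eq_norm_sq, ← Complex.normSq_eq_norm_sq, ← Complex.normSq_eq_norm_sq]
  simp only [Complex.normSq_apply, Complex.add_re, Complex.add_im, Complex.mul_re, Complex.mul_im,
    Complex.sub_re, Complex.sub_im, Complex.one_re, Complex.one_im, Complex.ofReal_re,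
    Complex.ofReal_im, Complex.conj_re, Complex.conj_im]
  ring

lemma choose_R {C₁ R₁ C₂ R₂ C₀ θ r : ℝ} (hC₂ : 0 < C₂) (hθ : r - 1 < θ) (hr : 1 < r) :
    ∃ R : ℝ, R₁ ≤ R ∧ R₂ ≤ R ∧ 1 ≤ R ∧ Real.exp (-(2 * (r - 1) * R)) / (Real.pi * C₂) ≤ 1 / 8 ∧
      2 * (C₀ + 1) * Real.exp (-(2 * R)) ≤ 1 / 8 ∧
      C₁ * R * Real.exp (-(2 * θ * R)) ≤
        Real.exp (-(2 * (r - 1) * R)) / (Real.pi * C₂) / 8 := by
  have hpi := Real.pi_pos
  have hexp : ∀ a : ℝ, 0 < a → Tendsto (fun R : ℝ => Real.exp (-(a * R))) atTop (𝓝 0) := by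
    intro a ha
    exact Real.tendsto_exp_neg_atTop_nhds_zero.comp (tendsto_id.const_mul_atTop ha)
  have h1 : ∀ᶠ R : ℝ in atTop, Real.exp (-(2 * (r - 1) * R)) / (Real.pi * C₂) ≤ 1 / 8 := by
    have := (hexp (2 * (r - 1)) (by linarith)).div_const (Real.pi * C₂)
    rw [zero_div] at this
    exact (this.eventually (gt_mem_nhds (show (0 : ℝ) < 1 / 8 by norm_num))).mono
      fun R h => h.le
  have h2 : ∀ᶠ R : ℝ in atTop, 2 * (C₀ + 1) * Real.exp (-(2 * R)) ≤ 1 / 8 := by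
    have := (hexp 2 (by norm_num)).const_mul (2 * (C₀ + 1))
    rw [mul_zero] at this
    exact (this.eventually (gt_mem_nhds (show (0 : ℝ) < 1 / 8 by norm_num))).mono
      fun R h => h.le
  have h3 : ∀ᶠ R : ℝ in atTop, C₁ * (R ^ (1 : ℝ) * Real.exp (-(2 * (θ - (r - 1))) * R)) ≤
      1 / (8 * (Real.pi * C₂)) := by
    have := (tendsto_rpow_mul_exp_neg_mul_atTop_nhds_zero 1 (2 * (θ - (r - 1)))
      (by linarith)).const_mul C₁
    rw [mul_zero] at this
    exact (this.eventually (gt_mem_nhds (show (0 : ℝ) < 1 / (8 * (Real.pi * C₂)) by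
      positivity))).mono fun R h => h.le
  obtain ⟨R, hR⟩ := ((((eventually_ge_atTop R₁).and (eventually_ge_atTop R₂)).and
    (eventually_ge_atTop 1)).and ((h1.and h2).and h3)).exists
  obtain ⟨⟨⟨a1, a2⟩, a3⟩, ⟨a4, a5⟩, a6⟩ := hR
  refine ⟨R, a1, a2, a3, a4, a5, ?_⟩
  rw [Real.rpow_one] at a6
  have e1 : Real.exp (-(2 * θ * R)) =
      Real.exp (-(2 * (θ - (r - 1))) * R) * Real.exp (-(2 * (r - 1) * R)) := by
    rw [← Real.exp_add]
    congr 1
    ring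
  calc C₁ * R * Real.exp (-(2 * θ * R))
      = C₁ * (R * Real.exp (-(2 * (θ - (r - 1))) * R)) * Real.exp (-(2 * (r - 1) * R)) := by
        rw [e1]
        ring
    _ ≤ 1 / (8 * (Real.pi * C₂)) * Real.exp (-(2 * (r - 1) * R)) :=
        mul_le_mul_of_nonneg_right a6 (Real.exp_pos _).le
    _ = Real.exp (-(2 * (r - 1) * R)) / (Real.pi * C₂) / 8 := by
        field_simp

lemma aux1 {c : ℝ} (h0 : 0 < c) (h8 : c ≤ 1 / 8) :
    (1 - c) ^ 2 + (1 - c) ^ 2 * (c / 8 + c / 8) ≤ 1 - 2 * c + c / 8 + c / 8 + c / 8 := by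
  have h1 : (1 - c) ^ 2 ≤ 1 - 2 * c + c / 8 := by nlinarith
  have h2 : (1 - c) ^ 2 ≤ 1 := by nlinarith
  have h3 : (1 - c) ^ 2 * (c / 8 + c / 8) ≤ 1 * (c / 8 + c / 8) :=
    mul_le_mul_of_nonneg_right h2 (by linarith)
  linarith

lemma aux2 {c : ℝ} (h0 : 0 < c) (h8 : c ≤ 1 / 8) : 0 ≤ 2 * c * (1 - c) :=
  mul_nonneg (by linarith) (by linarith)

lemma aux3 {c : ℝ} (h0 : 0 < c) : c * (1 - c) ≤ c * 1 :=
  mul_le_mul_of_nonneg_left (by linarith) h0.le

lemma aux4 (x y : ℝ) : x * y ≤ 1 / 2 * x ^ 2 + 1 / 2 * y ^ 2 := by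
  nlinarith [sq_nonneg (x - y)]

lemma aux5 (y : ℝ) : y ≤ Real.exp (y ^ 2) := by
  have := Real.add_one_le_exp (y ^ 2)
  nlinarith [sq_nonneg (y - 1)]

lemma aux6 {C T x : ℝ} (hT : 0 < T) (hx : 0 ≤ x) (h : x ≤ C * T) : 0 ≤ C := by
  by_contra hneg
  push Not at hneg
  nlinarith

lemma aux7 {r t τ T : ℝ} (hr : 1 < r) (hT : 0 < T) (ht : T / 2 ≤ t) (hτ : |τ| ≤ T / 4) :
    r * t + τ ≠ 0 := by
  have h2 := (abs_le.1 hτ).1
  have h3 : t ≤ r * t := le_mul_of_one_le_left (by linarith) hr.le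
  intro h
  linarith

theorem iu (hE1 : T_E1) (hE2 : T_E2) (hE3 : T_E3) (hCV : T_CV) : T_IU := by
  intro χ ψ r hr1 hr2
  have hpi := Real.pi_pos
  obtain ⟨θ, hθ⟩ : ∃ θ : ℝ, θ = (2 * r - 1) / 4 := ⟨_, rfl⟩
  obtain ⟨θ', hθ'⟩ : ∃ θ' : ℝ, θ' = (3 - 2 * r) / 8 := ⟨_, rfl⟩
  have hθ0 : 0 < θ := by rw [hθ]; linarith
  have hθ1 : θ < 1 / 2 := by rw [hθ]; linarith
  have hθ0' : 0 < θ' := by rw [hθ']; linarith
  have hθ1' : θ' < 1 / 2 := by rw [hθ']; linarith
  have hθθ : θ + θ' < 1 / 2 := by rw [hθ, hθ']; linarith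
  have hθr : r - 1 < θ := by rw [hθ]; linarith
  obtain ⟨C₁, R₁, hC₁, hR₁, E1⟩ := hE1 χ θ hθ0 hθ1
  obtain ⟨D, R₂, hD, hR₂, E2⟩ := hE2 ψ r θ' hr1 (by linarith) hθ0' hθ1'
  obtain ⟨c₀, C₀, ε, hc₀, hc₀', hC₀, hε, hε', E3⟩ := hE3 χ ψ r θ θ' hr1 hr2 hθ0 hθ0' hθθ
  obtain ⟨R, hRR1, hRR2, hR1, hc8, hC0R, hC1R⟩ :=
    choose_R (C₁ := C₁) (R₁ := R₁) (R₂ := R₂) (C₀ := C₀) hD hθr hr1
  obtain ⟨c, hc⟩ : ∃ c : ℝ, c = Real.exp (-(2 * (r - 1) * R)) / (Real.pi * D) := ⟨_, rfl⟩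
  rw [← hc] at hc8 hC1R
  have hcpos : 0 < c := by
    rw [hc]
    positivity
  obtain ⟨C₂, T₁, E1'⟩ := E1 R (c / 8) hRR1 (by positivity)
  obtain ⟨T₂, E2'⟩ := E2 R hRR2
  obtain ⟨T₃, E3'⟩ := E3 R hR1
  obtain ⟨B, hB⟩ : ∃ B : ℝ, B = (C₂ + D * Real.exp (2 * r * R)) / 2 := ⟨_, rfl⟩
  -- largeness of `T`
  obtain ⟨T₄, hT₄⟩ : ∃ T₄ : ℝ, ∀ T : ℝ, T₄ ≤ T → B * (10 * T ^ (-ε)) ≤ 2 / Real.pi := by
    have := ((tendsto_rpow_neg_atTop hε).const_mul 10).const_mul B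
    rw [mul_zero, mul_zero] at this
    obtain ⟨T₄, h⟩ := eventually_atTop.1 (this.eventually (gt_mem_nhds
      (show (0 : ℝ) < 2 / Real.pi by positivity)))
    exact ⟨T₄, fun T hT => (h T hT).le⟩
  refine ⟨R, c, c₀, max (max (max T₁ T₂) (max T₃ T₄)) (Real.exp 1), hR1, hcpos, by linarith,
    hc₀, hc₀', ?_⟩
  intro T τ hT hτ
  have hT1 : T₁ ≤ T := le_trans (le_trans (le_max_left _ _) (le_max_left _ _))
    (le_trans (le_max_left _ _) hT)
  have hT2 : T₂ ≤ T := le_trans (le_trans (le_max_right _ _) (le_max_left _ _))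
    (le_trans (le_max_left _ _) hT)
  have hT3 : T₃ ≤ T := le_trans (le_trans (le_max_left _ _) (le_max_right _ _))
    (le_trans (le_max_left _ _) hT)
  have hT4 : T₄ ≤ T := le_trans (le_trans (le_max_right _ _) (le_max_right _ _))
    (le_trans (le_max_left _ _) hT)
  have hTe : Real.exp 1 ≤ T := le_trans (le_max_right _ _) hT
  have hTone : 1 ≤ T := le_trans (by simpa using Real.exp_le_exp.2 (zero_le_one' ℝ)) hTe
  have hT0 : 0 < T := by linarith
  have hlog : 0 < Real.log T := by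
    refine lt_of_lt_of_le zero_lt_one ?_
    rw [Real.le_log_iff_exp_le hT0]
    exact hTe
  have hτ4 : |τ| ≤ T / 4 := by
    refine hτ.trans ?_
    rw [div_eq_mul_one_div, mul_comm c₀ T]
    exact mul_le_mul_of_nonneg_left hc₀' hT0.le
  obtain ⟨b₁, hb₁, F1, F1'⟩ := E1' T hT1
  obtain ⟨b₂, hb₂, F2⟩ := E2' T hT2
  have F2' := F2 τ hτ4
  obtain ⟨P, hP⟩ : ∃ P : Par, P = ⟨r, τ, R / Real.log T, b₁, ⌊T ^ θ⌋₊, b₂, ⌊T ^ θ'⌋₊, c⟩ :=
    ⟨_, rfl⟩
  have hTθ : 1 ≤ T ^ θ := Real.one_le_rpow hTone hθ0.le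
  have hTθ' : 1 ≤ T ^ θ' := Real.one_le_rpow hTone hθ0'.le
  have hY1 : (⌊T ^ θ⌋₊ : ℝ) ≤ T ^ θ := Nat.floor_le (by positivity)
  have hY2 : (⌊T ^ θ'⌋₊ : ℝ) ≤ T ^ θ' := Nat.floor_le (by positivity)
  have hTθT : T ^ θ ≤ T := by
    conv_rhs => rw [← Real.rpow_one T]
    exact Real.rpow_le_rpow_of_exponent_le hTone (by linarith)
  have hTθT' : T ^ θ' ≤ T := by
    conv_rhs => rw [← Real.rpow_one T]
    exact Real.rpow_le_rpow_of_exponent_le hTone (by linarith)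
  -- the two functions on the line
  obtain ⟨u₁, hu₁⟩ : ∃ u₁ : ℝ → ℂ, u₁ = fun t : ℝ =>
      χ.L ((1 / 2 - R / Real.log T : ℝ) + t * I) *
        Bf χ b₁ ⌊T ^ θ⌋₊ ((1 / 2 + R / Real.log T : ℝ) + t * I) := ⟨_, rfl⟩
  obtain ⟨u₂, hu₂⟩ : ∃ u₂ : ℝ → ℂ, u₂ = fun t : ℝ =>
      ψ.L ((1 / 2 - r * (R / Real.log T) : ℝ) + (r * t + τ : ℝ) * I) *
        Bf ψ b₂ ⌊T ^ θ'⌋₊ ((1 / 2 + r * (R / Real.log T) : ℝ) + (r * t + τ : ℝ) * I) := ⟨_, rfl⟩
  have hU1 : ∀ t : ℝ, U₁ χ P ((1 / 2 - P.η : ℝ) + t * I) = u₁ t := by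
    intro t
    rw [U₁, hu₁, hP]
    congr 2
    push_cast
    ring
  have hU2 : ∀ t : ℝ, U₂ ψ P ((1 / 2 - P.η : ℝ) + t * I) = u₂ t := by
    intro t
    rw [U₂, hu₂, hP]
    simp only [wl]
    congr 2
    · push_cast
      ring
    · push_cast
      ring
  have hc1 : ContinuousOn u₁ (Icc (T / 2) (3 * T)) := by
    rw [hu₁]
    refine ContinuousOn.mul ?_ ?_
    · have := L_line_continuousOn χ (1 / 2 - R / Real.log T) 1 0 (S := Icc (T / 2) (3 * T))
        (fun t ht => by have := ht.1; intro h; linarith)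
      refine this.congr fun t _ => ?_
      simp only [one_mul, add_zero]
    · refine ((Bf_continuous χ b₁ ⌊T ^ θ⌋₊).comp ?_).continuousOn
      fun_prop
  have hc2 : ContinuousOn u₂ (Icc (T / 2) (3 * T)) := by
    rw [hu₂]
    refine ContinuousOn.mul ?_ ?_
    · exact L_line_continuousOn ψ (1 / 2 - r * (R / Real.log T)) r τ (S := Icc (T / 2) (3 * T))
        (fun t ht => aux7 hr1 hT0 ht.1 hτ4)
    · refine ((Bf_continuous ψ b₂ ⌊T ^ θ'⌋₊).comp ?_).continuousOn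
      fun_prop
  obtain ⟨f, hf⟩ : ∃ f : ℝ → ℂ, f = fun t : ℝ => u₁ t * (starRingEnd ℂ) (u₂ t) := ⟨_, rfl⟩
  have hcf : ContinuousOn f (Icc (T / 2) (3 * T)) := by
    rw [hf]
    exact hc1.mul (continuous_conj.comp_continuousOn hc2)
  have hsub : uIcc (T / 2) (3 * T) ⊆ Icc (T / 2) (3 * T) := by
    rw [uIcc_of_le (by linarith)]
  -- the cross term
  have hcross : ‖∫ t in T..(2 * T), (sn T t : ℂ) * f t‖ ≤ 2 * T / Real.pi * (C₀ + 1) := by
    have h1 := hCV T (T ^ (1 - ε)) C₀ B f hTone (by positivity) hcf (by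
      intro u hu
      have h2 := E3' T u P hT3 hu.1 hu.2 (by rw [hP]) (by rw [hP]; exact hτ) (by rw [hP])
        (by rw [hP]; exact hb₁.le) (by rw [hP]; exact hb₂.le) (by rw [hP]; exact hY1)
        (by rw [hP]; exact hY2)
      have h3 : (fun t : ℝ => U₁ χ P ((1 / 2 - P.η : ℝ) + t * I) *
          (starRingEnd ℂ) (U₂ ψ P ((1 / 2 - P.η : ℝ) + t * I))) = f := by
        rw [hf]
        funext t
        rw [hU1, hU2]
      rw [h3] at h2
      exact h2) (by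
      have i1 : IntervalIntegrable (fun t => ‖u₁ t‖ ^ 2) volume (T / 2) (3 * T) :=
        ((hc1.mono hsub).norm.pow 2).intervalIntegrable
      have i2 : IntervalIntegrable (fun t => ‖u₂ t‖ ^ 2) volume (T / 2) (3 * T) :=
        ((hc2.mono hsub).norm.pow 2).intervalIntegrable
      have i3 : IntervalIntegrable (fun t => ‖f t‖) volume (T / 2) (3 * T) :=
        ((hcf.mono hsub).norm).intervalIntegrable
      have h2 : (∫ t in (T / 2)..(3 * T), ‖f t‖) ≤
          ∫ t in (T / 2)..(3 * T), (1 / 2 * ‖u₁ t‖ ^ 2 + 1 / 2 * ‖u₂ t‖ ^ 2) := by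
        refine intervalIntegral.integral_mono_on (by linarith) i3
          ((i1.const_mul _).add (i2.const_mul _)) fun t _ => ?_
        rw [hf]
        simp only [norm_mul, RCLike.norm_conj]
        exact aux4 _ _
      rw [intervalIntegral.integral_add (i1.const_mul _) (i2.const_mul _),
        intervalIntegral.integral_const_mul, intervalIntegral.integral_const_mul] at h2
      have h3 : (∫ t in (T / 2)..(3 * T), ‖u₁ t‖ ^ 2) ≤ C₂ * T := by
        rw [hu₁]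
        exact F1'
      have h4 : (∫ t in (T / 2)..(3 * T), ‖u₂ t‖ ^ 2) ≤ D * Real.exp (2 * r * R) * T := by
        rw [hu₂]
        exact F2'
      rw [hB]
      linarith)
    refine h1.trans ?_
    have h5 : 2 * T ^ (1 - ε) / T = 2 * T ^ (-ε) := by
      rw [Real.rpow_sub hT0, Real.rpow_one, Real.rpow_neg hT0.le]
      field_simp
    have h6 : Real.exp (-(T / (4 * T ^ (1 - ε))) ^ 2) ≤ 4 * T ^ (-ε) := by
      have h7 : T / (4 * T ^ (1 - ε)) = T ^ ε / 4 := by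
        rw [Real.rpow_sub hT0, Real.rpow_one]
        field_simp
      rw [h7, Real.rpow_neg hT0.le]
      have h8 : 0 < T ^ ε / 4 := by positivity
      rw [show -(T ^ ε / 4) ^ 2 = -((T ^ ε / 4) ^ 2) from rfl, Real.exp_neg]
      have h9 : T ^ ε / 4 ≤ Real.exp ((T ^ ε / 4) ^ 2) := aux5 _
      calc (Real.exp ((T ^ ε / 4) ^ 2))⁻¹ ≤ (T ^ ε / 4)⁻¹ := inv_anti₀ h8 h9
        _ = 4 * (T ^ ε)⁻¹ := by
          rw [inv_div]
          ring
    have hBnn : 0 ≤ B := by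
      by_contra hneg
      push Not at hneg
      have h7 : (0 : ℝ) ≤ ∫ t in (T / 2)..(3 * T), ‖u₁ t‖ ^ 2 :=
        intervalIntegral.integral_nonneg (by linarith) fun t _ => by positivity
      have h8 : (∫ t in (T / 2)..(3 * T), ‖u₁ t‖ ^ 2) ≤ C₂ * T := by
        rw [hu₁]
        exact F1'
      have h9 : 0 ≤ C₂ := aux6 hT0 h7 h8
      rw [hB] at hneg
      have h10 : 0 < D * Real.exp (2 * r * R) := by positivity
      linarith
    have h10 := hT₄ T hT4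
    calc C₀ * (2 * T / Real.pi) + B * T * (2 * T ^ (1 - ε) / T +
          2 * Real.exp (-(T / (4 * T ^ (1 - ε))) ^ 2))
        ≤ C₀ * (2 * T / Real.pi) + B * T * (2 * T ^ (-ε) + 2 * (4 * T ^ (-ε))) := by
          rw [h5]
          have : 0 ≤ B * T := by positivity
          gcongr
      _ = C₀ * (2 * T / Real.pi) + T * (B * (10 * T ^ (-ε))) := by ring
      _ ≤ C₀ * (2 * T / Real.pi) + T * (2 / Real.pi) := by gcongr
      _ = 2 * T / Real.pi * (C₀ + 1) := by ring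
  refine ⟨P, by rw [hP], by rw [hP], by rw [hP], by rw [hP]; exact hcpos.le,
    by rw [hP]; change c ≤ 1; linarith, by rw [hP]; exact hb₁, by rw [hP]; exact hb₂,
    by rw [hP]; exact (Nat.one_le_floor_iff _).2 hTθ, by rw [hP]; exact (Nat.one_le_floor_iff _).2 hTθ',
    by rw [hP]; exact hY1.trans hTθT, by rw [hP]; exact hY2.trans hTθT', ?_⟩
  -- the main computation
  have hint : (∫ t in T..(2 * T), sn T t * ‖U χ ψ P ((1 / 2 - P.η : ℝ) + t * I)‖ ^ 2) =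
      ∫ t in T..(2 * T), sn T t * ‖(1 - (c : ℂ)) * u₁ t + c * u₂ t‖ ^ 2 := by
    refine intervalIntegral.integral_congr fun t _ => ?_
    have h1 : U χ ψ P ((1 / 2 - P.η : ℝ) + t * I) = (1 - (c : ℂ)) * u₁ t + c * u₂ t := by
      rw [U, hU1, hU2, hP]
    simp only [h1]
  rw [hint, expand T c hT0 hc1 hc2]
  have hI1 : (∫ t in T..(2 * T), sn T t * ‖u₁ t‖ ^ 2) ≤
      2 * T / Real.pi * (Real.exp (2 * R) * (1 + C₁ * R * Real.exp (-(2 * θ * R)) + c / 8)) := by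
    rw [hu₁]
    exact F1
  have hI2 : (∫ t in T..(2 * T), sn T t * ‖u₂ t‖ ^ 2) ≤ D * Real.exp (2 * r * R) * T := by
    have i2 : IntervalIntegrable (fun t => ‖u₂ t‖ ^ 2) volume (T / 2) (3 * T) :=
      ((hc2.mono hsub).norm.pow 2).intervalIntegrable
    have hsub2 : uIcc T (2 * T) ⊆ uIcc (T / 2) (3 * T) := by
      rw [uIcc_of_le (by linarith), uIcc_of_le (by linarith)]
      exact Icc_subset_Icc (by linarith) (by linarith)
    have i3 : IntervalIntegrable (fun t => ‖u₂ t‖ ^ 2) volume T (2 * T) := i2.mono_set hsub2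
    have i4 : IntervalIntegrable (fun t => sn T t * ‖u₂ t‖ ^ 2) volume T (2 * T) :=
      ((sn_continuous T).continuousOn.mul
        ((hc2.mono (hsub2.trans hsub)).norm.pow 2)).intervalIntegrable
    calc (∫ t in T..(2 * T), sn T t * ‖u₂ t‖ ^ 2) ≤ ∫ t in T..(2 * T), ‖u₂ t‖ ^ 2 := by
          refine intervalIntegral.integral_mono_on (by linarith) i4 i3 fun t _ => ?_
          exact mul_le_of_le_one_left (sq_nonneg _) (sn_le_one T t)
      _ ≤ ∫ t in (T / 2)..(3 * T), ‖u₂ t‖ ^ 2 := by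
          refine intervalIntegral.integral_mono_interval (by linarith) (by linarith)
            (by linarith) ?_ i2
          exact Eventually.of_forall fun t => by positivity
      _ ≤ D * Real.exp (2 * r * R) * T := by
          rw [hu₂]
          exact F2'
  have hJ : (∫ t in T..(2 * T), (sn T t : ℂ) * (u₁ t * (starRingEnd ℂ) (u₂ t))).re ≤
      2 * T / Real.pi * (C₀ + 1) := by
    refine (Complex.re_le_norm _).trans ?_
    rw [hf] at hcross
    exact hcross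
  have hI1nn : (0 : ℝ) ≤ 2 * T / Real.pi * Real.exp (2 * R) := by positivity
  have e2 : c * (D * Real.exp (2 * r * R) * T) = 2 * T / Real.pi * (Real.exp (2 * R) / 2) := by
    have : Real.exp (2 * r * R) = Real.exp (2 * (r - 1) * R) * Real.exp (2 * R) := by
      rw [← Real.exp_add]
      congr 1
      ring
    rw [hc, this, Real.exp_neg]
    field_simp
  have e3 : 2 * (C₀ + 1) ≤ Real.exp (2 * R) * (1 / 8) := by
    rw [Real.exp_neg] at hC0R
    have := Real.exp_pos (2 * R)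
    rw [← div_eq_mul_inv, div_le_iff₀ this] at hC0R
    linarith
  have hs : 0 < 2 * T / Real.pi := by positivity
  have t1 : (1 - c) ^ 2 * (∫ t in T..(2 * T), sn T t * ‖u₁ t‖ ^ 2) ≤
      2 * T / Real.pi * (Real.exp (2 * R) * (1 - 2 * c + c / 8 + c / 8 + c / 8)) := by
    have h2 : (0 : ℝ) ≤ (1 - c) ^ 2 := sq_nonneg _
    have h3 : (0 : ℝ) < Real.exp (2 * R) := Real.exp_pos _
    calc (1 - c) ^ 2 * (∫ t in T..(2 * T), sn T t * ‖u₁ t‖ ^ 2)
        ≤ (1 - c) ^ 2 * (2 * T / Real.pi * (Real.exp (2 * R) *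
            (1 + C₁ * R * Real.exp (-(2 * θ * R)) + c / 8))) :=
          mul_le_mul_of_nonneg_left hI1 h2
      _ ≤ (1 - c) ^ 2 * (2 * T / Real.pi * (Real.exp (2 * R) * (1 + c / 8 + c / 8))) := by
          gcongr
      _ = 2 * T / Real.pi * (Real.exp (2 * R) * ((1 - c) ^ 2 + (1 - c) ^ 2 * (c / 8 + c / 8))) := by
          ring
      _ ≤ 2 * T / Real.pi * (Real.exp (2 * R) * (1 - 2 * c + c / 8 + c / 8 + c / 8)) := by
          have := aux1 hcpos hc8
          exact mul_le_mul_of_nonneg_left (mul_le_mul_of_nonneg_left this h3.le) hs.le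
  have t2 : c ^ 2 * (∫ t in T..(2 * T), sn T t * ‖u₂ t‖ ^ 2) ≤
      2 * T / Real.pi * (Real.exp (2 * R) * (c / 2)) := by
    calc c ^ 2 * (∫ t in T..(2 * T), sn T t * ‖u₂ t‖ ^ 2)
        ≤ c ^ 2 * (D * Real.exp (2 * r * R) * T) :=
          mul_le_mul_of_nonneg_left hI2 (sq_nonneg _)
      _ = c * (c * (D * Real.exp (2 * r * R) * T)) := by ring
      _ = 2 * T / Real.pi * (Real.exp (2 * R) * (c / 2)) := by
          rw [e2]
          ring
  have t3 : 2 * c * (1 - c) *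
      (∫ t in T..(2 * T), (sn T t : ℂ) * (u₁ t * (starRingEnd ℂ) (u₂ t))).re ≤
      2 * T / Real.pi * (Real.exp (2 * R) * (c / 8)) := by
    have h1 : 0 ≤ 2 * c * (1 - c) := aux2 hcpos hc8
    calc 2 * c * (1 - c) * (∫ t in T..(2 * T), (sn T t : ℂ) * (u₁ t * (starRingEnd ℂ) (u₂ t))).re
        ≤ 2 * c * (1 - c) * (2 * T / Real.pi * (C₀ + 1)) := mul_le_mul_of_nonneg_left hJ h1
      _ = 2 * T / Real.pi * (c * (1 - c) * (2 * (C₀ + 1))) := by ring
      _ ≤ 2 * T / Real.pi * (c * 1 * (Real.exp (2 * R) * (1 / 8))) := by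
          have h2 : 0 ≤ 2 * (C₀ + 1) := by linarith
          have h3 : c * (1 - c) ≤ c * 1 := aux3 hcpos
          have h4 : (0 : ℝ) ≤ c * 1 := by linarith
          gcongr
      _ = 2 * T / Real.pi * (Real.exp (2 * R) * (c / 8)) := by ring
  calc _ ≤ 2 * T / Real.pi * (Real.exp (2 * R) * (1 - 2 * c + c / 8 + c / 8 + c / 8)) +
        2 * T / Real.pi * (Real.exp (2 * R) * (c / 2)) +
        2 * T / Real.pi * (Real.exp (2 * R) * (c / 8)) := by linarith
    _ = 2 * T / Real.pi * (Real.exp (2 * R) * (1 - c)) := by ring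

end Pool.Agent.H27.PZ
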